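import Pool.Agent.H76.MU.Tup2

set_option autoImplicit false

/-!
Tuples of constant terms for which two forms can be proportional.
-/

namespace Pool.Agent.H76.PT

open Finset
open Pool.Agent.H76.MU (Bx mem_Bx Bx_card)

/-- the tuples with `u h j = v h i` -/
def D1 (k X : ℕ) (i j : Fin k) (u v : ℕ) : Finset (Fin k → ℕ) := (Bx k X).filter (fun h => u * h j = v * h i)

lemma D1_card (k X : ℕ) (i j : Fin k) (hij : i ≠ j) (u v : ℕ) (hu : 1 ≤ u) : (D1 k X i j u v).card * X ≤ X ^ k := by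
  classical
  have e1 : (D1 k X i j u v).card * X = (D1 k X i j u v ×ˢ Icc 1 X).card := by rw [card_product, Nat.card_Icc, Nat.add_sub_cancel]
  rw [e1, ← Bx_card]
  refine card_le_card_of_injOn (fun t => Function.update t.1 j t.2) ?_ ?_
  · intro t ht
    rw [mem_coe, mem_product, D1, mem_filter, mem_Bx, mem_Icc] at ht
    rw [mem_coe, mem_Bx]
    intro l
    by_cases hl : l = j
    · subst hl
      simp only [Function.update_self]
      exact ht.2
    · simp only [Function.update_of_ne hl]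
      exact ht.1.1 l
  · rintro ⟨h, c⟩ ht ⟨h', c'⟩ ht' he
    rw [mem_coe, mem_product, D1, mem_filter] at ht ht'
    dsimp only at he ht ht'
    have e2 := congrFun he j
    simp only [Function.update_self] at e2
    have e3 : ∀ l, l ≠ j → h l = h' l := by
      intro l hl
      have := congrFun he l
      simpa only [Function.update_of_ne hl] using this
    have e4 : h j = h' j := by
      have h1 := ht.1.2
      have h2 := ht'.1.2
      rw [e3 i hij] at h1
      exact Nat.eq_of_mul_eq_mul_left hu (h1.trans h2.symm)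
    have e5 : h = h' := by
      funext l
      by_cases hl : l = j
      · rw [hl]; exact e4
      · exact e3 l hl
    rw [e5, e2]

/-- the degenerate tuples -/
def Dg (k X Q : ℕ) : Finset (Fin k → ℕ) :=
  ((univ : Finset (Fin k × Fin k)).filter (fun t => t.1 ≠ t.2)).biUnion (fun t =>
    ((Icc 1 Q) ×ˢ (Icc 1 Q)).biUnion (fun s => D1 k X t.1 t.2 s.1 s.2))

lemma Dg_sub (k X Q : ℕ) : Dg k X Q ⊆ Bx k X := by
  unfold Dg
  refine biUnion_subset.2 fun t _ => biUnion_subset.2 fun s _ => ?_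
  exact filter_subset _ _

lemma Dg_card (k X Q : ℕ) : (Dg k X Q).card * X ≤ (k ^ 2 * Q ^ 2) * X ^ k := by
  classical
  unfold Dg
  have h1 : ∀ t ∈ (univ : Finset (Fin k × Fin k)).filter (fun t => t.1 ≠ t.2),
      (((Icc 1 Q) ×ˢ (Icc 1 Q)).biUnion (fun s => D1 k X t.1 t.2 s.1 s.2)).card * X ≤ Q ^ 2 * X ^ k := by
    intro t ht
    rw [mem_filter] at ht
    calc (((Icc 1 Q) ×ˢ (Icc 1 Q)).biUnion (fun s => D1 k X t.1 t.2 s.1 s.2)).card * X ≤
          (∑ s ∈ (Icc 1 Q) ×ˢ (Icc 1 Q), (D1 k X t.1 t.2 s.1 s.2).card) * X := Nat.mul_le_mul_right _ card_biUnion_le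
      _ = ∑ s ∈ (Icc 1 Q) ×ˢ (Icc 1 Q), (D1 k X t.1 t.2 s.1 s.2).card * X := sum_mul _ _ _
      _ ≤ ∑ s ∈ (Icc 1 Q) ×ˢ (Icc 1 Q), X ^ k := by
          refine sum_le_sum fun s hs => ?_
          rw [mem_product, mem_Icc] at hs
          exact D1_card k X t.1 t.2 ht.2 s.1 s.2 hs.1.1
      _ = Q ^ 2 * X ^ k := by rw [sum_const, card_product, Nat.card_Icc, smul_eq_mul, Nat.add_sub_cancel]; ring
  calc _ ≤ (∑ t ∈ (univ : Finset (Fin k × Fin k)).filter (fun t => t.1 ≠ t.2),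
        (((Icc 1 Q) ×ˢ (Icc 1 Q)).biUnion (fun s => D1 k X t.1 t.2 s.1 s.2)).card) * X := Nat.mul_le_mul_right _ card_biUnion_le
    _ = ∑ t ∈ (univ : Finset (Fin k × Fin k)).filter (fun t => t.1 ≠ t.2),
        (((Icc 1 Q) ×ˢ (Icc 1 Q)).biUnion (fun s => D1 k X t.1 t.2 s.1 s.2)).card * X := sum_mul _ _ _
    _ ≤ ∑ t ∈ (univ : Finset (Fin k × Fin k)).filter (fun t => t.1 ≠ t.2), Q ^ 2 * X ^ k := sum_le_sum h1
    _ ≤ k ^ 2 * (Q ^ 2 * X ^ k) := by
        rw [sum_const, smul_eq_mul]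
        refine Nat.mul_le_mul_right _ ?_
        refine (card_filter_le _ _).trans ?_
        rw [card_univ, Fintype.card_prod, Fintype.card_fin, sq]
    _ = _ := by ring

lemma not_Dg {k X Q : ℕ} {h : Fin k → ℕ} (hh : h ∈ Bx k X) (hD : h ∉ Dg k X Q) (i j : Fin k) (hij : i ≠ j) (u v : ℕ)
    (hu : u ∈ Icc 1 Q) (hv : v ∈ Icc 1 Q) : u * h j ≠ v * h i := by
  intro he
  apply hD
  unfold Dg
  rw [mem_biUnion]
  refine ⟨(i, j), ?_, ?_⟩
  · rw [mem_filter]
    exact ⟨mem_univ _, hij⟩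
  · rw [mem_biUnion]
    exact ⟨(u, v), mem_product.2 ⟨hu, hv⟩, mem_filter.2 ⟨hh, he⟩⟩

end Pool.Agent.H76.PT
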