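import Pool.Agent.H76.PT.Ins
import Pool.Agent.H76.MU.LiFin

set_option autoImplicit false

/-!
Mixed products of the von Mangoldt and the Liouville function along linear forms.
-/

namespace Pool.Agent.H76.PT

open Finset Pool.Agent.E8helper66.GB
open Pool.Agent.H807R2.Dav (ee norm_ee ee_add)
open Pool.Agent.E8helper77.GB (ev_log)
open Pool.Agent.H373R2.T7 (liR liR_norm lamz lamz_nonneg)
open Pool.Agent.H76.MU (FullAt Bx mem_Bx Bx_card lam lam_cast full_li)

/-- the values of the forms: `n` itself and `a i * n + h i` -/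
def fm {k : ℕ} (a h : Fin k → ℕ) (n : ℕ) : Fin (k + 1) → ℕ := Fin.cons n (fun i => a i * n + h i)

/-- the von Mangoldt function -/
noncomputable def vM (n : ℕ) : ℝ := ArithmeticFunction.vonMangoldt n

/-- the five functions -/
noncomputable def G5 (z : ℕ) : Fin 5 → ℕ → ℂ := ![fun _ => 1, fun n => (vM n : ℂ), fun n => (lamz z n : ℂ), DD z, liR]

lemma DD_eq (z n : ℕ) : DD z n = (vM n : ℂ) - (lamz z n : ℂ) := by
  unfold DD vM
  push_cast
  rfl

theorem five (k A K : ℕ) : ∃ E0 : ℕ, ∀ E : ℕ, E0 ≤ E → ∃ X₀ : ℕ, ∀ X : ℕ, X₀ ≤ X → ∀ z : ℕ, Real.log X ^ E ≤ z →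
    (z : ℝ) ≤ Real.log X ^ (E + 1) → ∃ B ⊆ Bx k X, (B.card : ℝ) ≤ (X : ℝ) ^ k / Real.log X ^ A ∧
      ∀ h ∈ Bx k X, h ∉ B → ∀ a : Fin k → ℕ, (∀ i, 1 ≤ a i ∧ (a i : ℝ) ≤ Real.log X ^ K) →
        ∀ σ : Fin (k + 1) → Fin 5, (∃ i, σ i = 3 ∨ σ i = 4) → ∀ x ≤ X, ∀ α : ℝ,
        ‖∑ n ∈ Icc 1 x, (∏ i, G5 z (σ i) (fm a h n i)) * ee ((n : ℝ) * α)‖ ≤ (X : ℝ) / Real.log X ^ A := by
  classical
  obtain ⟨A', K', X₀, h0⟩ := ins k 5 A (K + 2)
  obtain ⟨B, hB⟩ := full_DD A' K'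
  refine ⟨B + 1, fun E hE => ?_⟩
  obtain ⟨N₁, h1⟩ := hB (E + 1)
  obtain ⟨N₂, h2⟩ := full_li A' K'
  obtain ⟨N₃, h3⟩ := ev_log (K + 2) (2 ^ B + 8)
  obtain ⟨N₄, h4⟩ := lamz_le_log (E + 1)
  refine ⟨max X₀ (max N₁ (max N₂ (max N₃ (max N₄ 4)))), fun X hX z hz1 hz2 => ?_⟩
  simp only [max_le_iff] at hX
  obtain ⟨c0, c1, c2, c3, c4, c5⟩ := hX
  obtain ⟨hbig, hl⟩ := h3 X c3
  set l : ℝ := Real.log X with hldef
  have h2B : (1 : ℝ) ≤ 2 ^ B := one_le_pow₀ (by norm_num)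
  have hl8 : 8 ≤ l := by linarith
  have hl1 : 1 ≤ l := by linarith
  have hl0 : 0 < l := by linarith
  have hXpos : (0 : ℝ) < X := by
    have : 0 < X := by omega
    exact_mod_cast this
  have hX4 : (4 : ℝ) ≤ X := by exact_mod_cast c5
  set Q : ℕ := ⌊l ^ K⌋₊ with hQ
  have hlK : 1 ≤ l ^ K := one_le_pow₀ hl1
  have hQ1 : 1 ≤ Q := Nat.le_floor (by simpa using hlK)
  have hQ2 : (Q : ℝ) ≤ l ^ K := Nat.floor_le (by positivity)
  have hQ3 : (Q : ℝ) ≤ l ^ (K + 2) := hQ2.trans (pow_le_pow_right₀ hl1 (by omega))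
  set N : ℕ := (Q + 1) * (2 * X) with hN
  have hXN : X ≤ N := by rw [hN]; nlinarith
  have hXNr : (X : ℝ) ≤ N := by exact_mod_cast hXN
  have hNup : (N : ℝ) ≤ X * X := by
    rw [hN]; push_cast
    have h5 : ((Q : ℝ) + 1) * 2 ≤ X := by
      calc ((Q : ℝ) + 1) * 2 ≤ (l ^ K + l ^ K) * 2 := by gcongr
        _ = 4 * l ^ K := by ring
        _ ≤ l ^ 2 * l ^ K := by
          gcongr
          nlinarith
        _ = l ^ (K + 2) := by rw [← pow_add]; congr 1; ring
        _ ≤ X := hbig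
    nlinarith
  have hlN1 : l ≤ Real.log N := Real.log_le_log hXpos hXNr
  have hlN2 : Real.log N ≤ 2 * l := by
    have := Real.log_le_log (by linarith : (0 : ℝ) < N) hNup
    rw [Real.log_mul hXpos.ne' hXpos.ne'] at this
    linarith
  have hlN0 : 0 < Real.log N := by linarith
  have hzN1 : Real.log N ^ B ≤ z := by
    refine le_trans ?_ hz1
    calc Real.log N ^ B ≤ (2 * l) ^ B := by gcongr
      _ = 2 ^ B * l ^ B := mul_pow _ _ _
      _ ≤ l * l ^ B := by gcongr; linarith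
      _ = l ^ (B + 1) := by rw [pow_succ]; ring
      _ ≤ l ^ E := pow_le_pow_right₀ hl1 hE
  have hzN2 : (z : ℝ) ≤ Real.log N ^ (E + 1) := hz2.trans (pow_le_pow_left₀ hl0.le hlN1 _)
  have hz0 : 1 ≤ z := by
    have : (1 : ℝ) ≤ z := (one_le_pow₀ hl1).trans hz1
    exact_mod_cast this
  have hlz := h4 N (c4.trans hXN) z hz0 hzN2
  have hvM : ∀ x ∈ Icc 1 N, |vM x| ≤ Real.log N := by
    intro x hx
    rw [mem_Icc] at hx
    unfold vM
    rw [abs_of_nonneg ArithmeticFunction.vonMangoldt_nonneg]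
    refine ArithmeticFunction.vonMangoldt_le_log.trans ?_
    apply Real.log_le_log
    · have : 0 < x := by omega
      exact_mod_cast this
    · exact_mod_cast hx.2
  have hpow2 : 4 * l ≤ l ^ (K + 2) := by
    calc 4 * l ≤ l * l := by nlinarith
      _ = 1 * l ^ 2 := by ring
      _ ≤ l ^ K * l ^ 2 := by gcongr
      _ = _ := by rw [pow_add]
  obtain ⟨B1, hB1, hB2, hB3⟩ := h0 X c0 Q hQ1 hQ3 (G5 z) {3, 4}
    (by
      intro j x hx
      refine le_trans ?_ hpow2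
      fin_cases j
      · show ‖(1 : ℂ)‖ ≤ _
        rw [norm_one]; linarith
      · show ‖((vM x : ℝ) : ℂ)‖ ≤ _
        rw [Complex.norm_real, Real.norm_eq_abs]
        have := hvM x hx
        linarith
      · show ‖((lamz z x : ℝ) : ℂ)‖ ≤ _
        rw [Complex.norm_real, Real.norm_eq_abs]
        have := hlz x
        linarith
      · show ‖DD z x‖ ≤ _
        rw [DD_eq]
        refine (norm_sub_le _ _).trans ?_
        rw [Complex.norm_real, Real.norm_eq_abs, Complex.norm_real, Real.norm_eq_abs]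
        have := hlz x
        have := hvM x hx
        linarith
      · show ‖liR x‖ ≤ _
        have := liR_norm x
        linarith)
    (by
      intro j hj
      rw [mem_insert, mem_singleton] at hj
      rcases hj with rfl | rfl
      · show FullAt N (DD z) A' K'
        exact h1 N (c1.trans hXN) z hzN1 hzN2
      · show FullAt N liR A' K'
        exact h2 N (c2.trans hXN))
  refine ⟨B1, hB1, hB2, fun h hh hhB a ha σ hσ x hx α => ?_⟩
  have haQ : a ∈ Bx k Q := by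
    rw [mem_Bx]
    intro i
    exact ⟨(ha i).1, Nat.le_floor (ha i).2⟩
  have h5 := hB3 h hh hhB a haQ σ (by
    obtain ⟨i, hi⟩ := hσ
    exact ⟨i, by rw [mem_insert, mem_singleton]; exact hi⟩) x hx α
  refine le_trans (le_of_eq ?_) h5
  congr 1
  refine sum_congr rfl fun n _ => ?_
  rw [Fin.prod_univ_succ]
  rfl

/-- the products with at least one value of the Liouville function, and the products of the von Mangoldt function
compared with the sieve model -/
theorem mixed (k A K : ℕ) : ∃ E0 : ℕ, ∀ E : ℕ, E0 ≤ E → ∃ X₀ : ℕ, ∀ X : ℕ, X₀ ≤ X → ∀ z : ℕ, Real.log X ^ E ≤ z →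
    (z : ℝ) ≤ Real.log X ^ (E + 1) → ∃ B ⊆ Bx k X, (B.card : ℝ) ≤ (X : ℝ) ^ k / Real.log X ^ A ∧
      ∀ h ∈ Bx k X, h ∉ B → ∀ a : Fin k → ℕ, (∀ i, 1 ≤ a i ∧ (a i : ℝ) ≤ Real.log X ^ K) →
        (∀ P Q : Finset (Fin (k + 1)), Disjoint P Q → Q.Nonempty → ∀ x ≤ X, ∀ α : ℝ,
          ‖∑ n ∈ Icc 1 x, ((∏ i ∈ P, vM (fm a h n i) : ℝ) : ℂ) * ((∏ i ∈ Q, lam (fm a h n i) : ℤ) : ℂ) * ee ((n : ℝ) * α)‖ ≤
            (X : ℝ) / Real.log X ^ A) ∧
        (∀ P : Finset (Fin (k + 1)), ∀ x ≤ X, ∀ α : ℝ,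
          ‖∑ n ∈ Icc 1 x, ((∏ i ∈ P, vM (fm a h n i) - ∏ i ∈ P, lamz z (fm a h n i) : ℝ) : ℂ) * ee ((n : ℝ) * α)‖ ≤
            (X : ℝ) / Real.log X ^ A) := by
  classical
  obtain ⟨E0, h0⟩ := five k (A + 1) K
  refine ⟨E0, fun E hE => ?_⟩
  obtain ⟨X₀, h0⟩ := h0 E hE
  obtain ⟨N₁, h1⟩ := ev_log 1 (2 ^ (k + 1))
  refine ⟨max X₀ N₁, fun X hX z hz1 hz2 => ?_⟩
  obtain ⟨_, hl⟩ := h1 X ((le_max_right _ _).trans hX)
  set l : ℝ := Real.log X with hldef
  have hl1 : 1 ≤ l := (one_le_pow₀ (by norm_num : (1 : ℝ) ≤ 2)).trans hl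
  have hl0 : 0 < l := by linarith
  obtain ⟨B, hB1, hB2, hB3⟩ := h0 X ((le_max_left _ _).trans hX) z hz1 hz2
  have hmono : (l : ℝ) ^ A ≤ l ^ (A + 1) := pow_le_pow_right₀ hl1 (by omega)
  refine ⟨B, hB1, hB2.trans (by gcongr), fun h hh hhB a ha => ⟨?_, ?_⟩⟩
  · intro P Q hPQ ⟨i₀, hi₀⟩ x hx α
    have h5 := hB3 h hh hhB a ha (fun i => if i ∈ P then 1 else if i ∈ Q then 4 else 0)
      ⟨i₀, Or.inr (by
        have : i₀ ∉ P := fun h6 => (disjoint_left.1 hPQ) h6 hi₀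
        simp [this, hi₀])⟩ x hx α
    refine le_trans (le_of_eq ?_) (h5.trans (by gcongr))
    congr 1
    refine sum_congr rfl fun n _ => ?_
    congr 1
    have e1 : ∀ i ∈ (univ : Finset (Fin (k + 1))), G5 z (if i ∈ P then 1 else if i ∈ Q then 4 else 0) (fm a h n i) =
        (if i ∈ P then (vM (fm a h n i) : ℂ) else 1) * (if i ∈ Q then ((lam (fm a h n i) : ℤ) : ℂ) else 1) := by
      intro i _
      by_cases hiP : i ∈ P
      · have hiQ : i ∉ Q := (disjoint_left.1 hPQ) hiP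
        simp only [if_pos hiP, if_neg hiQ, mul_one]
        rfl
      · by_cases hiQ : i ∈ Q
        · simp only [if_neg hiP, if_pos hiQ, one_mul]
          rw [lam_cast]
          rfl
        · simp only [if_neg hiP, if_neg hiQ, one_mul]
          rfl
    rw [prod_congr rfl e1, prod_mul_distrib, prod_ite_mem, prod_ite_mem, univ_inter, univ_inter]
    push_cast
    rfl
  · intro P x hx α
    have e1 : ∀ n ∈ Icc 1 x, ((∏ i ∈ P, vM (fm a h n i) - ∏ i ∈ P, lamz z (fm a h n i) : ℝ) : ℂ) * ee ((n : ℝ) * α) =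
        ∑ T ∈ P.powerset.erase ∅, (∏ i, G5 z (if i ∈ T then 3 else if i ∈ P then 2 else 0) (fm a h n i)) * ee ((n : ℝ) * α) := by
      intro n _
      rw [← sum_mul]
      congr 1
      have e2 : ((∏ i ∈ P, vM (fm a h n i) : ℝ) : ℂ) = ∏ i ∈ P, (DD z (fm a h n i) + (lamz z (fm a h n i) : ℂ)) := by
        push_cast
        refine prod_congr rfl fun i _ => ?_
        rw [DD_eq]
        ring
      rw [Complex.ofReal_sub, e2, prod_add, ← add_sum_erase _ _ (mem_powerset.2 (empty_subset P)), prod_empty, one_mul,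
        sdiff_empty]
      push_cast
      rw [add_sub_cancel_left]
      refine sum_congr rfl fun T hT => ?_
      rw [mem_erase, mem_powerset] at hT
      have e3 : ∀ i ∈ (univ : Finset (Fin (k + 1))), G5 z (if i ∈ T then 3 else if i ∈ P then 2 else 0) (fm a h n i) =
          (if i ∈ T then DD z (fm a h n i) else 1) * (if i ∈ P \ T then (lamz z (fm a h n i) : ℂ) else 1) := by
        intro i _
        by_cases hiT : i ∈ T
        · have hiPT : i ∉ P \ T := fun h6 => (mem_sdiff.1 h6).2 hiT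
          simp only [if_pos hiT, if_neg hiPT, mul_one]
          rfl
        · by_cases hiP : i ∈ P
          · have hiPT : i ∈ P \ T := mem_sdiff.2 ⟨hiP, hiT⟩
            simp only [if_neg hiT, if_pos hiP, if_pos hiPT, one_mul]
            rfl
          · have hiPT : i ∉ P \ T := fun h6 => hiP (mem_sdiff.1 h6).1
            simp only [if_neg hiT, if_neg hiP, if_neg hiPT, one_mul]
            rfl
      rw [prod_congr rfl e3, prod_mul_distrib, prod_ite_mem, prod_ite_mem, univ_inter, univ_inter]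
    rw [sum_congr rfl e1, sum_comm]
    refine (norm_sum_le _ _).trans ?_
    have h6 : ∀ T ∈ P.powerset.erase ∅, ‖∑ n ∈ Icc 1 x, (∏ i, G5 z (if i ∈ T then 3 else if i ∈ P then 2 else 0) (fm a h n i)) *
        ee ((n : ℝ) * α)‖ ≤ X / l ^ (A + 1) := by
      intro T hT
      rw [mem_erase] at hT
      obtain ⟨i₀, hi₀⟩ := nonempty_iff_ne_empty.2 hT.1
      exact hB3 h hh hhB a ha _ ⟨i₀, Or.inl (by simp [hi₀])⟩ x hx α
    refine (sum_le_sum h6).trans ?_
    rw [sum_const, nsmul_eq_mul]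
    have h7 : ((P.powerset.erase ∅).card : ℝ) ≤ 2 ^ (k + 1) := by
      have : (P.powerset.erase ∅).card ≤ 2 ^ (k + 1) := by
        refine (card_le_card (erase_subset _ _)).trans ?_
        rw [card_powerset]
        refine Nat.pow_le_pow_right (by norm_num) ?_
        have := card_le_univ P
        simpa using this
      exact_mod_cast this
    calc ((P.powerset.erase ∅).card : ℝ) * (X / l ^ (A + 1)) ≤ l * (X / l ^ (A + 1)) := by
          gcongr
          exact h7.trans hl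
      _ = X / l ^ A := by rw [pow_succ]; field_simp

end Pool.Agent.H76.PT
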