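import Pool.Agent.H76.PT.Tern
import Pool.Agent.H76.PT.Deg
import Pool.Agent.H76.PT.Five
import Pool.Agent.H76.MU.Words

set_option autoImplicit false

/-!
The ternary problem for mixed tuples of primes and signs.
-/

namespace Pool.Agent.H76.PT

open Finset Pool.Agent.E8helper66.GB
open Pool.Agent.H807R2.Dav (ee norm_ee ee_add)
open Pool.Agent.E8helper77.GB (ev_log)
open Pool.Agent.H373R2.T7 (liR liR_norm lamz lamz_nonneg)
open Pool.Agent.H76.MU (FullAt Bx mem_Bx Bx_card lam lam_cast full_li sgn_norm lam_val)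

/-- the coefficients of the forms -/
def cc {k : ℕ} (a : Fin k → ℕ) : Fin (k + 1) → ℕ := Fin.cons 1 a

/-- the constant terms of the forms -/
def dd {k : ℕ} (h : Fin k → ℕ) : Fin (k + 1) → ℕ := Fin.cons 0 h

lemma fm_eq {k : ℕ} (a h : Fin k → ℕ) (n : ℕ) (i : Fin (k + 1)) : fm a h n i = cc a i * n + dd h i := by
  unfold fm cc dd
  refine Fin.cases ?_ (fun i => ?_) i
  · simp
  · simp

/-- the weight of the three variables -/
noncomputable def W1 {k : ℕ} (a h : Fin k → ℕ) (P Q : Finset (Fin (k + 1))) (ε : Fin (k + 1) → ℤ) (n : ℕ) : ℂ :=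
  ((∏ i ∈ P, vM (fm a h n i) : ℝ) : ℂ) * ((∏ i ∈ Q, (1 + ε i * lam (fm a h n i)) : ℤ) : ℂ)

lemma sign_prod {k : ℕ} (Q : Finset (Fin (k + 1))) (ε F : Fin (k + 1) → ℤ) (hε : ∀ i, ε i = 1 ∨ ε i = -1)
    (hF : ∀ i, F i = 1 ∨ F i = -1) [Decidable (∀ i ∈ Q, F i = ε i)] :
    ∏ i ∈ Q, (1 + ε i * F i) = if ∀ i ∈ Q, F i = ε i then 2 ^ Q.card else 0 := by
  split_ifs with h
  · rw [prod_congr rfl (fun i hi => show 1 + ε i * F i = 2 by rw [h i hi]; rcases hε i with h1 | h1 <;> rw [h1] <;> norm_num)]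
    rw [prod_const]
  · push Not at h
    obtain ⟨i, hi, h⟩ := h
    refine prod_eq_zero hi ?_
    rcases hε i with h1 | h1 <;> rcases hF i with h2 | h2 <;> rw [h1, h2] at h ⊢ <;>
      first | exact absurd rfl h | norm_num

/-- exponential sums of the weights -/
theorem weights (k A K : ℕ) : ∃ E0 : ℕ, ∀ E : ℕ, E0 ≤ E → ∃ X₀ : ℕ, ∀ X : ℕ, X₀ ≤ X → ∀ z : ℕ, Real.log X ^ E ≤ z →
    (z : ℝ) ≤ Real.log X ^ (E + 1) → ∃ B ⊆ Bx k X, (B.card : ℝ) ≤ (X : ℝ) ^ k / Real.log X ^ A ∧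
      ∀ h ∈ Bx k X, h ∉ B → ∀ a : Fin k → ℕ, (∀ i, 1 ≤ a i ∧ (a i : ℝ) ≤ Real.log X ^ K) →
        (∀ P Q : Finset (Fin (k + 1)), Disjoint P Q → Q.Nonempty → ∀ x ≤ X, ∀ α : ℝ,
          ‖∑ n ∈ Icc 1 x, ((∏ i ∈ P, vM (fm a h n i) : ℝ) : ℂ) * ((∏ i ∈ Q, lam (fm a h n i) : ℤ) : ℂ) * ee ((n : ℝ) * α)‖ ≤
            (X : ℝ) / Real.log X ^ A) ∧
        (∀ P Q : Finset (Fin (k + 1)), Disjoint P Q → ∀ ε : Fin (k + 1) → ℤ, (∀ i, ε i = 1 ∨ ε i = -1) → ∀ x ≤ X, ∀ α : ℝ,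
          ‖∑ n ∈ Icc 1 x, (W1 a h P Q ε n - ((∏ i ∈ P, lamz z (fm a h n i) : ℝ) : ℂ)) * ee ((n : ℝ) * α)‖ ≤
            (X : ℝ) / Real.log X ^ A) ∧
        (∀ i j : Fin (k + 1), i ≠ j → cc a i * dd h j ≠ cc a j * dd h i) := by
  classical
  obtain ⟨E0, h0⟩ := mixed k (A + 1) K
  refine ⟨E0, fun E hE => ?_⟩
  obtain ⟨X₀, h0⟩ := h0 E hE
  obtain ⟨N₁, h1⟩ := ev_log (A + 2 * K + 1) (2 ^ (k + 1) + k ^ 2 + 1)
  refine ⟨max X₀ (max N₁ 1), fun X hX z hz1 hz2 => ?_⟩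
  simp only [max_le_iff] at hX
  obtain ⟨c0, c1, c2⟩ := hX
  obtain ⟨hbig, hl⟩ := h1 X c1
  set l : ℝ := Real.log X with hldef
  have h2k : (0 : ℝ) < 2 ^ (k + 1) := by positivity
  have hk2 : (0 : ℝ) ≤ (k : ℝ) ^ 2 := by positivity
  have hl1 : 1 ≤ l := by linarith
  have hl0 : 0 < l := by linarith
  have hXpos : (0 : ℝ) < X := by exact_mod_cast c2
  obtain ⟨B, hB1, hB2, hB3⟩ := h0 X c0 z hz1 hz2
  have hmono : (l : ℝ) ^ A ≤ l ^ (A + 1) := pow_le_pow_right₀ hl1 (by omega)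
  set Q₀ : ℕ := ⌊l ^ K⌋₊ with hQ₀
  have hQ2 : (Q₀ : ℝ) ≤ l ^ K := Nat.floor_le (by positivity)
  refine ⟨B ∪ Dg k X Q₀, union_subset hB1 (Dg_sub k X Q₀), ?_, ?_⟩
  · have h3 : ((B ∪ Dg k X Q₀).card : ℝ) ≤ B.card + (Dg k X Q₀).card := by exact_mod_cast card_union_le _ _
    have h4 : ((Dg k X Q₀).card : ℝ) * X ≤ (k ^ 2 * Q₀ ^ 2) * X ^ k := by exact_mod_cast Dg_card k X Q₀
    have h5 : ((Dg k X Q₀).card : ℝ) ≤ (k : ℝ) ^ 2 * (X ^ k / l ^ (A + 1)) := by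
      have h6 : (((k : ℝ) ^ 2) * (X ^ k / l ^ (A + 1))) * X ≥ (k ^ 2 * Q₀ ^ 2) * X ^ k := by
        have h7 : (Q₀ : ℝ) ^ 2 * l ^ (A + 1) ≤ X := by
          calc (Q₀ : ℝ) ^ 2 * l ^ (A + 1) ≤ (l ^ K) ^ 2 * l ^ (A + 1) := by gcongr
            _ = l ^ (A + 2 * K + 1) := by rw [← pow_mul, ← pow_add]; congr 1; ring
            _ ≤ X := hbig
        have h8 : (Q₀ : ℝ) ^ 2 ≤ X / l ^ (A + 1) := by
          rw [le_div_iff₀ (by positivity)]
          exact h7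
        calc ((k : ℝ) ^ 2 * Q₀ ^ 2) * X ^ k ≤ ((k : ℝ) ^ 2 * (X / l ^ (A + 1))) * X ^ k := by gcongr
          _ = _ := by ring
      exact le_of_mul_le_mul_right (h4.trans h6) hXpos
    refine h3.trans ((add_le_add hB2 h5).trans ?_)
    calc (X : ℝ) ^ k / l ^ (A + 1) + (k : ℝ) ^ 2 * (X ^ k / l ^ (A + 1)) = ((k ^ 2 + 1) / l) * (X ^ k / l ^ A) := by
          rw [pow_succ]; field_simp; ring
      _ ≤ 1 * (X ^ k / l ^ A) := by
          gcongr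
          rw [div_le_one hl0]
          linarith
      _ = _ := one_mul _
  intro h hh hhB a ha
  rw [mem_union, not_or] at hhB
  obtain ⟨g1, g2⟩ := hB3 h hh hhB.1 a ha
  have ha' : ∀ i, a i ∈ Icc 1 Q₀ := fun i => mem_Icc.2 ⟨(ha i).1, Nat.le_floor (ha i).2⟩
  refine ⟨fun P Q hPQ hQ x hx α => (g1 P Q hPQ hQ x hx α).trans (by gcongr), ?_, ?_⟩
  · intro P Q hPQ ε hε x hx α
    have e1 : ∀ n ∈ Icc 1 x, (W1 a h P Q ε n - ((∏ i ∈ P, lamz z (fm a h n i) : ℝ) : ℂ)) * ee ((n : ℝ) * α) =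
        ((∏ i ∈ P, vM (fm a h n i) - ∏ i ∈ P, lamz z (fm a h n i) : ℝ) : ℂ) * ee ((n : ℝ) * α) +
        ∑ U ∈ Q.powerset.erase ∅, ((∏ i ∈ U, ε i : ℤ) : ℂ) *
          (((∏ i ∈ P, vM (fm a h n i) : ℝ) : ℂ) * ((∏ i ∈ U, lam (fm a h n i) : ℤ) : ℂ) * ee ((n : ℝ) * α)) := by
      intro n _
      unfold W1
      have e2 : ((∏ i ∈ Q, (1 + ε i * lam (fm a h n i)) : ℤ) : ℂ) = 1 + ∑ U ∈ Q.powerset.erase ∅,
          ((∏ i ∈ U, ε i : ℤ) : ℂ) * ((∏ i ∈ U, lam (fm a h n i) : ℤ) : ℂ) := by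
        rw [prod_one_add, ← add_sum_erase _ _ (mem_powerset.2 (empty_subset Q)), prod_empty]
        push_cast
        congr 1
        refine sum_congr rfl fun U _ => ?_
        rw [prod_mul_distrib]
      rw [e2, Complex.ofReal_sub, mul_add, mul_one, add_sub_right_comm, add_mul, mul_sum, sum_mul]
      congr 1
      refine sum_congr rfl fun U _ => ?_
      ring
    rw [sum_congr rfl e1, sum_add_distrib, sum_comm]
    refine (norm_add_le _ _).trans ?_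
    have h6 : ∀ U ∈ Q.powerset.erase ∅, ‖∑ n ∈ Icc 1 x, ((∏ i ∈ U, ε i : ℤ) : ℂ) *
          (((∏ i ∈ P, vM (fm a h n i) : ℝ) : ℂ) * ((∏ i ∈ U, lam (fm a h n i) : ℤ) : ℂ) * ee ((n : ℝ) * α))‖ ≤ X / l ^ (A + 1) := by
      intro U hU
      rw [mem_erase, mem_powerset] at hU
      rw [← mul_sum, norm_mul]
      have h7 : ‖((∏ i ∈ U, ε i : ℤ) : ℂ)‖ = 1 := by
        refine sgn_norm _ ?_
        refine prod_induction _ (fun z : ℤ => z = 1 ∨ z = -1) ?_ (Or.inl rfl) (fun u _ => hε _)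
        rintro x y (rfl | rfl) (rfl | rfl) <;> norm_num
      rw [h7, one_mul]
      exact g1 P U (disjoint_of_subset_right hU.2 hPQ) (nonempty_iff_ne_empty.2 hU.1) x hx α
    have h8 := g2 P x hx α
    have h9 : ‖∑ U ∈ Q.powerset.erase ∅, ∑ n ∈ Icc 1 x, ((∏ i ∈ U, ε i : ℤ) : ℂ) *
          (((∏ i ∈ P, vM (fm a h n i) : ℝ) : ℂ) * ((∏ i ∈ U, lam (fm a h n i) : ℤ) : ℂ) * ee ((n : ℝ) * α))‖ ≤
        (2 ^ (k + 1) : ℝ) * (X / l ^ (A + 1)) := by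
      refine (norm_sum_le _ _).trans ((sum_le_sum h6).trans ?_)
      rw [sum_const, nsmul_eq_mul]
      have h7 : ((Q.powerset.erase ∅).card : ℝ) ≤ 2 ^ (k + 1) := by
        have : (Q.powerset.erase ∅).card ≤ 2 ^ (k + 1) := by
          refine (card_le_card (erase_subset _ _)).trans ?_
          rw [card_powerset]
          refine Nat.pow_le_pow_right (by norm_num) ?_
          have := card_le_univ Q
          simpa using this
        exact_mod_cast this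
      gcongr
    refine (add_le_add h8 h9).trans ?_
    calc (X : ℝ) / l ^ (A + 1) + 2 ^ (k + 1) * (X / l ^ (A + 1)) = ((2 ^ (k + 1) + 1) / l) * (X / l ^ A) := by
          rw [pow_succ l]; field_simp; ring
      _ ≤ 1 * (X / l ^ A) := by
          gcongr
          rw [div_le_one hl0]
          linarith
      _ = _ := one_mul _
  · intro i j
    refine Fin.cases ?_ (fun i => ?_) i
    · refine Fin.cases ?_ (fun j => ?_) j
      · intro h3; exact absurd rfl h3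
      · intro _
        unfold cc dd
        simp only [Fin.cons_zero, Fin.cons_succ, one_mul, mul_zero]
        have := (mem_Bx.1 hh j).1
        omega
    · refine Fin.cases ?_ (fun j => ?_) j
      · intro _
        unfold cc dd
        simp only [Fin.cons_zero, Fin.cons_succ, one_mul, mul_zero]
        have := (mem_Bx.1 hh i).1
        omega
      · intro hij
        unfold cc dd
        simp only [Fin.cons_succ]
        exact not_Dg hh hhB.2 i j (fun h3 => hij (by rw [h3])) (a i) (a j) (ha' i) (ha' j)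

/-- the von Mangoldt function at the forms is small -/
lemma vM_fm {k K X : ℕ} {a h : Fin k → ℕ} (hX : (4 : ℝ) ≤ X) (hK : 2 * Real.log X ^ K ≤ X)
    (ha : ∀ i, 1 ≤ a i ∧ (a i : ℝ) ≤ Real.log X ^ K) (hh : h ∈ Bx k X) (n : ℕ) (hn : n ∈ Icc 1 X) (i : Fin (k + 1)) :
    fm a h n i ∈ Icc 1 (X * X) ∧ 0 ≤ vM (fm a h n i) ∧ vM (fm a h n i) ≤ 2 * Real.log X := by
  rw [mem_Icc] at hn
  have hX4 : 4 ≤ X := by exact_mod_cast hX
  have hXpos : (0 : ℝ) < X := by linarith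
  have h1 : fm a h n i ∈ Icc 1 (X * X) := by
    rw [mem_Icc]
    unfold fm
    refine Fin.cases ?_ (fun i => ?_) i
    · simp only [Fin.cons_zero]
      constructor
      · exact hn.1
      · nlinarith
    · simp only [Fin.cons_succ]
      have h2 := mem_Bx.1 hh i
      have h3 := (ha i).1
      constructor
      · omega
      · have h4 : (2 * (a i) : ℝ) ≤ X := by
          have := (ha i).2
          linarith
        have h5 : 2 * a i ≤ X := by exact_mod_cast h4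
        nlinarith
  refine ⟨h1, ArithmeticFunction.vonMangoldt_nonneg, ?_⟩
  rw [mem_Icc] at h1
  refine ArithmeticFunction.vonMangoldt_le_log.trans ?_
  have h2 : Real.log ((fm a h n i : ℕ) : ℝ) ≤ Real.log ((X : ℝ) * X) := by
    apply Real.log_le_log
    · exact_mod_cast h1.1
    · exact_mod_cast h1.2
  rw [Real.log_mul hXpos.ne' hXpos.ne'] at h2
  linarith

/-- the ternary problem -/
theorem hlc (k A K : ℕ) : ∃ X₀ : ℕ, ∀ X : ℕ, X₀ ≤ X → ∃ B ⊆ Bx k X, (B.card : ℝ) ≤ (X : ℝ) ^ k / Real.log X ^ A ∧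
      (∀ h ∈ Bx k X, h ∉ B → ∀ a : Fin k → ℕ, (∀ i, 1 ≤ a i ∧ (a i : ℝ) ≤ Real.log X ^ K) →
        ∀ P Q : Finset (Fin (k + 1)), Disjoint P Q → Q.Nonempty → ∀ x ≤ X, ∀ α : ℝ,
          ‖∑ n ∈ Icc 1 x, ((∏ i ∈ P, vM (fm a h n i) : ℝ) : ℂ) * ((∏ i ∈ Q, lam (fm a h n i) : ℤ) : ℂ) * ee ((n : ℝ) * α)‖ ≤
            (X : ℝ) / Real.log X ^ A) ∧
      (∀ h : Fin 3 → Fin k → ℕ, (∀ r, h r ∈ Bx k X ∧ h r ∉ B) → ∀ a : Fin 3 → Fin k → ℕ,
        (∀ r i, 1 ≤ a r i ∧ (a r i : ℝ) ≤ Real.log X ^ K) → ∀ P Q : Fin 3 → Finset (Fin (k + 1)), (∀ r, Disjoint (P r) (Q r)) →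
        (∀ r, ∀ i ∈ P r, (cc (a r) i).Coprime (dd (h r) i)) →
        ∀ ε : Fin 3 → Fin (k + 1) → ℤ, (∀ r i, ε r i = 1 ∨ ε r i = -1) → ∀ m : ℕ,
        ‖∑ t ∈ TR X m, W1 (a 0) (h 0) (P 0) (Q 0) (ε 0) t.1 * W1 (a 1) (h 1) (P 1) (Q 1) (ε 1) t.2 *
            W1 (a 2) (h 2) (P 2) (Q 2) (ε 2) (m - t.1 - t.2) -
          (Sq (kap P) (QB (fun r => cc (a r)) (fun r => dd (h r)) P m) X * (TR X m).card : ℝ)‖ ≤
            (X : ℝ) ^ 2 / Real.log X ^ A) := by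
  classical
  set A₁ : ℕ := A + 2 * (2 * (k + 1)) + 1 with hA₁
  obtain ⟨E1, h1⟩ := weights k A₁ K
  obtain ⟨E2, h2⟩ := modelX (k + 1) (A + 1)
  set E : ℕ := max E1 (max E2 1) with hE
  obtain ⟨X₁, h1⟩ := h1 E (le_max_left _ _)
  obtain ⟨X₂, h2⟩ := h2 E ((le_max_left _ _).trans (le_max_right _ _))
  obtain ⟨X₃, h3⟩ := ev_log (K + 1) (2 ^ (k + 1) * 2 ^ (k + 1) + 3 * (2 ^ (k + 1) * 2 ^ (k + 1)) ^ 2 + 4)
  obtain ⟨X₄, h4⟩ := lamz_le_log (E + 1)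
  refine ⟨max X₁ (max X₂ (max X₃ (max X₄ 4))), fun X hX => ?_⟩
  simp only [max_le_iff] at hX
  obtain ⟨c1, c2, c3, c4, c5⟩ := hX
  obtain ⟨hbig, hl⟩ := h3 X c3
  set l : ℝ := Real.log X with hldef
  set M : ℝ := 2 ^ (k + 1) * 2 ^ (k + 1) with hM
  have hM1 : 1 ≤ M := by
    have : (1 : ℝ) ≤ 2 ^ (k + 1) := one_le_pow₀ (by norm_num)
    nlinarith
  have hM2 : 0 ≤ 3 * M ^ 2 := by positivity
  have hl4 : 4 ≤ l := by linarith
  have hl1 : 1 ≤ l := by linarith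
  have hl0 : 0 < l := by linarith
  have hX4 : (4 : ℝ) ≤ X := by exact_mod_cast c5
  have hXpos : (0 : ℝ) < X := by linarith
  have hE1 : (1 : ℝ) ≤ l ^ E := one_le_pow₀ hl1
  set z : ℕ := ⌈l ^ E⌉₊ with hz
  have hz1 : l ^ E ≤ z := Nat.le_ceil _
  have hz2 : (z : ℝ) ≤ l ^ (E + 1) := by
    have h7 : (z : ℝ) < l ^ E + 1 := Nat.ceil_lt_add_one (by positivity)
    rw [pow_succ]
    nlinarith
  have hz0 : 1 ≤ z := by
    have : (1 : ℝ) ≤ z := hE1.trans hz1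
    exact_mod_cast this
  have hlz := h4 X c4 z hz0 hz2
  obtain ⟨B, hB1, hB2, hB3⟩ := h1 X c1 z hz1 hz2
  have hmono : (l : ℝ) ^ A ≤ l ^ A₁ := pow_le_pow_right₀ hl1 (by omega)
  have hK2 : 2 * l ^ K ≤ X := by
    calc 2 * l ^ K ≤ l * l ^ K := by gcongr; linarith
      _ = l ^ (K + 1) := by rw [pow_succ]; ring
      _ ≤ X := hbig
  refine ⟨B, hB1, hB2.trans (by gcongr), ?_, ?_⟩
  · intro h hh hhB a ha P Q hPQ hQ x hx α
    exact ((hB3 h hh hhB a ha).1 P Q hPQ hQ x hx α).trans (by gcongr)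
  intro h hh a ha P Q hPQ hcop ε hε m
  -- the model
  have hmod := h2 X c2 z hz1 hz2 (fun r => cc (a r)) (fun r => dd (h r)) P m hcop
    (by
      intro r i _
      have hi : 1 ≤ cc (a r) i ∧ cc (a r) i ≤ X ∧ dd (h r) i ≤ X := by
        unfold cc dd
        refine Fin.cases ?_ (fun i => ?_) i
        · simp only [Fin.cons_zero]
          omega
        · simp only [Fin.cons_succ]
          have h5 := mem_Bx.1 (hh r).1 i
          obtain ⟨h6, h7⟩ := ha r i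
          have h8 : (a r i : ℝ) ≤ X := by
            have : 0 ≤ l ^ K := by positivity
            linarith
          exact ⟨h6, by exact_mod_cast h8, h5.2⟩
      exact hi)
    (by
      intro r i _ j _ hij
      have h5 := (hB3 (h r) (hh r).1 (hh r).2 (a r) (ha r)).2.2 i j hij
      exact_mod_cast h5)
  -- the circle method
  set u : Fin 3 → ℕ → ℂ := fun r n => W1 (a r) (h r) (P r) (Q r) (ε r) n with hu
  set v : Fin 3 → ℕ → ℂ := fun r n => ((∏ i ∈ P r, lamz z (fm (a r) (h r) n i) : ℝ) : ℂ) with hv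
  have hcardP : ∀ r, (P r).card ≤ k + 1 := fun r => by simpa using card_le_univ (P r)
  have hcardQ : ∀ r, (Q r).card ≤ k + 1 := fun r => by simpa using card_le_univ (Q r)
  have h2l : 1 ≤ 2 * l := by linarith
  have hubd : ∀ r, ∀ n ∈ Icc 1 X, ‖u r n‖ ≤ M * l ^ (k + 1) := by
    intro r n hn
    rw [hu]
    dsimp only
    unfold W1
    rw [norm_mul]
    have b1 : ‖((∏ i ∈ P r, vM (fm (a r) (h r) n i) : ℝ) : ℂ)‖ ≤ (2 * l) ^ (k + 1) := by
      rw [Complex.norm_real, Real.norm_eq_abs, abs_prod]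
      calc ∏ i ∈ P r, |vM (fm (a r) (h r) n i)| ≤ ∏ i ∈ P r, (2 * l) := by
            refine prod_le_prod (fun _ _ => abs_nonneg _) fun i _ => ?_
            obtain ⟨_, h6, h7⟩ := vM_fm hX4 hK2 (ha r) (hh r).1 n hn i
            rw [abs_of_nonneg h6]
            exact h7
        _ = (2 * l) ^ (P r).card := by rw [prod_const]
        _ ≤ _ := pow_le_pow_right₀ h2l (hcardP r)
    have b2 : ‖((∏ i ∈ Q r, (1 + ε r i * lam (fm (a r) (h r) n i)) : ℤ) : ℂ)‖ ≤ 2 ^ (k + 1) := by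
      rw [sign_prod (Q r) (ε r) (fun i => lam (fm (a r) (h r) n i)) (hε r) (fun i => lam_val _)]
      split_ifs
      · push_cast
        rw [norm_pow, Complex.norm_ofNat]
        exact pow_le_pow_right₀ (by norm_num) (hcardQ r)
      · simp
    calc _ ≤ (2 * l) ^ (k + 1) * 2 ^ (k + 1) := mul_le_mul b1 b2 (norm_nonneg _) (by positivity)
      _ = M * l ^ (k + 1) := by rw [hM, mul_pow]; ring
  have hvbd : ∀ r, ∀ n ∈ Icc 1 X, ‖v r n‖ ≤ M * l ^ (k + 1) := by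
    intro r n _
    rw [hv]
    dsimp only
    rw [Complex.norm_real, Real.norm_eq_abs, abs_prod]
    calc ∏ i ∈ P r, |lamz z (fm (a r) (h r) n i)| ≤ ∏ i ∈ P r, l := by
          refine prod_le_prod (fun _ _ => abs_nonneg _) fun i _ => hlz _
      _ = l ^ (P r).card := by rw [prod_const]
      _ ≤ l ^ (k + 1) := pow_le_pow_right₀ hl1 (hcardP r)
      _ = 1 * l ^ (k + 1) := (one_mul _).symm
      _ ≤ M * l ^ (k + 1) := by gcongr
  have hsup : ∀ r, ∀ α : ℝ, ‖∑ n ∈ Icc 1 X, (u r n - v r n) * ee ((n : ℝ) * α)‖ ≤ X / l ^ A₁ := by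
    intro r α
    exact (hB3 (h r) (hh r).1 (hh r).2 (a r) (ha r)).2.1 (P r) (Q r) (hPQ r) (ε r) (hε r) X le_rfl α
  have hcirc := tern3 X m u v (M * l ^ (k + 1)) (X / l ^ A₁) (by positivity) (by positivity) hubd hvbd hsup
  have e1 : ∑ t ∈ TR X m, v 0 t.1 * v 1 t.2 * v 2 (m - t.1 - t.2) =
      ((∑ t ∈ TR X m, LZ3 z (fun r => cc (a r)) (fun r => dd (h r)) P m t : ℝ) : ℂ) := by
    push_cast
    refine sum_congr rfl fun t _ => ?_
    rw [hv]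
    dsimp only
    unfold LZ3
    simp only [fm_eq]
    push_cast
    rfl
  rw [e1] at hcirc
  have e2 : 3 * (X / l ^ A₁ * (X * (M * l ^ (k + 1)) ^ 2)) ≤ (X : ℝ) ^ 2 / l ^ (A + 1) := by
    have e3 : l ^ A₁ = l ^ (2 * (k + 1)) * (l ^ (2 * (k + 1)) * l ^ (A + 1)) := by
      rw [hA₁, ← pow_add, ← pow_add]; congr 1; ring
    have e4 : 3 * (X / l ^ A₁ * (X * (M * l ^ (k + 1)) ^ 2)) = (3 * M ^ 2 / l ^ (2 * (k + 1))) * ((X : ℝ) ^ 2 / l ^ (A + 1)) := by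
      rw [e3, mul_pow, ← pow_mul, mul_comm (k + 1) 2]
      field_simp
    rw [e4]
    calc (3 * M ^ 2 / l ^ (2 * (k + 1))) * ((X : ℝ) ^ 2 / l ^ (A + 1)) ≤ 1 * ((X : ℝ) ^ 2 / l ^ (A + 1)) := by
          gcongr
          rw [div_le_one (by positivity)]
          calc 3 * M ^ 2 ≤ l := by linarith
            _ = l ^ 1 := (pow_one l).symm
            _ ≤ _ := pow_le_pow_right₀ hl1 (by omega)
      _ = _ := one_mul _
  have e5 : ‖((∑ t ∈ TR X m, LZ3 z (fun r => cc (a r)) (fun r => dd (h r)) P m t : ℝ) : ℂ) -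
      (Sq (kap P) (QB (fun r => cc (a r)) (fun r => dd (h r)) P m) X * (TR X m).card : ℝ)‖ ≤ (X : ℝ) ^ 2 / l ^ (A + 1) := by
    rw [← Complex.ofReal_sub, Complex.norm_real, Real.norm_eq_abs]
    exact hmod
  calc _ = ‖(∑ t ∈ TR X m, u 0 t.1 * u 1 t.2 * u 2 (m - t.1 - t.2) -
          ((∑ t ∈ TR X m, LZ3 z (fun r => cc (a r)) (fun r => dd (h r)) P m t : ℝ) : ℂ)) +
        (((∑ t ∈ TR X m, LZ3 z (fun r => cc (a r)) (fun r => dd (h r)) P m t : ℝ) : ℂ) -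
      (Sq (kap P) (QB (fun r => cc (a r)) (fun r => dd (h r)) P m) X * (TR X m).card : ℝ))‖ := by
        congr 1
        ring
    _ ≤ (X : ℝ) ^ 2 / l ^ (A + 1) + (X : ℝ) ^ 2 / l ^ (A + 1) :=
        (norm_add_le _ _).trans (add_le_add (hcirc.trans e2) e5)
    _ = (2 / l) * (X ^ 2 / l ^ A) := by rw [pow_succ]; field_simp; ring
    _ ≤ 1 * (X ^ 2 / l ^ A) := by
        gcongr
        rw [div_le_one hl0]
        linarith
    _ = _ := one_mul _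

end Pool.Agent.H76.PT
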