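import Pool.Agent.H76.PT.Hlc

set_option autoImplicit false

/-!
The final form of the ternary theorem.
-/

namespace Pool.Agent.H76.PT

open Finset
open Pool.Agent.H373R2.T7 (pz mem_pz)
open Pool.Agent.H76.VG (nu2)
open Pool.Agent.H76.MU (Bx mem_Bx lam lam_val)

/-- the triples of numbers in `[1, X]` with the sum `m` -/
def Tri (X m : ℕ) : Finset (Fin 3 → ℕ) := (Fintype.piFinset fun _ : Fin 3 => Icc 1 X).filter (fun n => n 0 + n 1 + n 2 = m)

lemma mem_Tri {X m : ℕ} {n : Fin 3 → ℕ} : n ∈ Tri X m ↔ (∀ r, 1 ≤ n r ∧ n r ≤ X) ∧ n 0 + n 1 + n 2 = m := by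
  unfold Tri
  rw [mem_filter, Fintype.mem_piFinset]
  simp only [mem_Icc]

lemma Tri_sum {M : Type} [AddCommMonoid M] (X m : ℕ) (f : ℕ → ℕ → ℕ → M) :
    ∑ n ∈ Tri X m, f (n 0) (n 1) (n 2) = ∑ t ∈ TR X m, f t.1 t.2 (m - t.1 - t.2) := by
  refine sum_bij' (fun n _ => (n 0, n 1)) (fun t _ => ![t.1, t.2, m - t.1 - t.2]) ?_ ?_ ?_ ?_ ?_
  · intro n hn
    rw [mem_Tri] at hn
    rw [mem_TR]
    have h0 := hn.1 0
    have h1 := hn.1 1
    have h2 := hn.1 2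
    dsimp only
    omega
  · intro t ht
    rw [mem_TR] at ht
    rw [mem_Tri]
    refine ⟨fun r => ?_, ?_⟩
    · fin_cases r
      · show 1 ≤ t.1 ∧ t.1 ≤ X
        omega
      · show 1 ≤ t.2 ∧ t.2 ≤ X
        omega
      · show 1 ≤ m - t.1 - t.2 ∧ m - t.1 - t.2 ≤ X
        omega
    · show t.1 + t.2 + (m - t.1 - t.2) = m
      omega
  · intro n hn
    rw [mem_Tri] at hn
    funext r
    fin_cases r
    · rfl
    · rfl
    · show m - n 0 - n 1 = n 2
      omega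
  · intro t _
    rfl
  · intro n hn
    rw [mem_Tri] at hn
    dsimp only
    congr 1
    omega

lemma Tri_card (X m : ℕ) : (Tri X m).card = (TR X m).card := by
  rw [card_eq_sum_ones, card_eq_sum_ones]
  exact Tri_sum X m (fun _ _ _ => 1)

/-- the number of the good triples of classes -/
def locN {k : ℕ} (a h : Fin 3 → Fin k → ℕ) (P : Fin 3 → Finset (Fin (k + 1))) (m p : ℕ) : ℕ :=
  ((Fintype.piFinset fun _ : Fin 3 => range p).filter (fun n => (n 0 + n 1 + n 2) % p = m % p ∧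
    ∀ r, ∀ i ∈ P r, ¬ p ∣ fm (a r) (h r) (n r) i)).card

lemma bad1_fm {k : ℕ} (a h : Fin k → ℕ) (P : Finset (Fin (k + 1))) (p n : ℕ) :
    bad1 (cc a) (dd h) P p n ↔ ∃ i ∈ P, p ∣ fm a h n i := by
  unfold bad1
  have : ∀ i, ((p : ℤ) ∣ cc a i * n + dd h i ↔ p ∣ fm a h n i) := by
    intro i
    rw [fm_eq, ← Int.natCast_dvd_natCast]
    push_cast
    rfl
  simp only [this]

lemma loc_nu2 {k : ℕ} (a h : Fin 3 → Fin k → ℕ) (P : Fin 3 → Finset (Fin (k + 1))) (m p : ℕ) (hp : p.Prime) :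
    nu2 (QB (fun r => cc (a r)) (fun r => dd (h r)) P m) p + locN a h P m p = p ^ 2 := by
  classical
  have hp0 : 0 < p := hp.pos
  have hpZ : (0 : ℤ) < p := by exact_mod_cast hp0
  set QQ := QB (fun r => cc (a r)) (fun r => dd (h r)) P m with hQQ
  have h1 := card_filter_add_card_filter_not (s := range p ×ˢ range p) (fun t : ℕ × ℕ => QQ p t.1 t.2)
  rw [card_product, card_range] at h1
  have h2 : nu2 QQ p = ((range p ×ˢ range p).filter (fun t : ℕ × ℕ => QQ p t.1 t.2)).card := by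
    unfold nu2
    congr 1
  have h3 : locN a h P m p = ((range p ×ˢ range p).filter (fun t : ℕ × ℕ => ¬ QQ p t.1 t.2)).card := by
    unfold locN
    refine card_bij' (fun n _ => (n 0, n 1)) (fun t _ => ![t.1, t.2, (((m : ℤ) - t.1 - t.2) % p).toNat]) ?_ ?_ ?_ ?_
    · intro n hn
      rw [mem_filter, Fintype.mem_piFinset] at hn
      obtain ⟨hr, hs, hg⟩ := hn
      rw [mem_filter, mem_product]
      refine ⟨⟨hr 0, hr 1⟩, ?_⟩
      have hcong : (p : ℤ) ∣ (m - n 0 - n 1 : ℤ) - (n 2 : ℤ) := by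
        have h4 : n 0 + n 1 + n 2 ≡ m [MOD p] := hs
        have h5 := (Nat.modEq_iff_dvd.1 h4)
        push_cast at h5
        rw [show (m - n 0 - n 1 : ℤ) - (n 2 : ℤ) = m - (n 0 + n 1 + n 2) by ring]
        exact h5
      dsimp only
      rw [hQQ]
      unfold QB
      rw [bad1_congr _ _ _ _ _ _ hcong, bad1_fm, bad1_fm, bad1_fm]
      push Not
      exact ⟨fun i hi => hg 0 i hi, fun i hi => hg 1 i hi, fun i hi => hg 2 i hi⟩
    · intro t ht
      rw [mem_filter, mem_product, mem_range, mem_range] at ht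
      have hw0 : 0 ≤ ((m : ℤ) - t.1 - t.2) % p := Int.emod_nonneg _ hpZ.ne'
      have hw1 : ((m : ℤ) - t.1 - t.2) % p < p := Int.emod_lt_of_pos _ hpZ
      set w : ℕ := (((m : ℤ) - t.1 - t.2) % p).toNat with hw
      have hwZ : (w : ℤ) = ((m : ℤ) - t.1 - t.2) % p := Int.toNat_of_nonneg hw0
      have hcong : (p : ℤ) ∣ (m - t.1 - t.2 : ℤ) - (w : ℤ) := by
        rw [hwZ]
        exact Int.dvd_self_sub_emod
      rw [mem_filter, Fintype.mem_piFinset]
      refine ⟨?_, ?_, ?_⟩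
      · intro r
        rw [mem_range]
        fin_cases r
        · exact ht.1.1
        · exact ht.1.2
        · show w < p
          omega
      · show (t.1 + t.2 + w) % p = m % p
        have h5 : t.1 + t.2 + w ≡ m [MOD p] := by
          rw [Nat.modEq_iff_dvd]
          push_cast
          rw [show (m : ℤ) - (t.1 + t.2 + w) = (m - t.1 - t.2 : ℤ) - (w : ℤ) by ring]
          exact hcong
        exact h5
      · have h6 := ht.2
        rw [hQQ] at h6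
        unfold QB at h6
        rw [bad1_congr _ _ _ _ _ _ hcong, bad1_fm, bad1_fm, bad1_fm] at h6
        push Not at h6
        intro r
        fin_cases r
        · exact h6.1
        · exact h6.2.1
        · exact h6.2.2
    · intro n hn
      rw [mem_filter, Fintype.mem_piFinset] at hn
      obtain ⟨hr, hs, hg⟩ := hn
      have h4 : n 0 + n 1 + n 2 ≡ m [MOD p] := hs
      have h5 := (Nat.modEq_iff_dvd.1 h4)
      push_cast at h5
      funext r
      fin_cases r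
      · rfl
      · rfl
      · show (((m : ℤ) - n 0 - n 1) % p).toNat = n 2
        have h6 : ((m : ℤ) - n 0 - n 1) % p = (n 2 : ℤ) % p := by
          apply Int.ModEq.symm
          rw [Int.modEq_iff_dvd]
          rw [show ((m : ℤ) - n 0 - n 1) - n 2 = m - (n 0 + n 1 + n 2) by ring]
          exact h5
        have h7 : (n 2 : ℤ) % p = n 2 := by
          apply Int.emod_eq_of_lt (by positivity)
          exact_mod_cast mem_range.1 (hr 2)
        rw [h6, h7]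
        simp
    · intro t _
      rfl
  rw [h2, h3, sq]
  exact h1

/-- the singular series -/
noncomputable def Sing {k : ℕ} (X : ℕ) (a h : Fin 3 → Fin k → ℕ) (P : Fin 3 → Finset (Fin (k + 1))) (m : ℕ) : ℝ :=
  ∏ p ∈ (Icc 1 X).filter Nat.Prime, ((locN a h P m p : ℝ) / p ^ 2) / (1 - 1 / (p : ℝ)) ^ (∑ r, (P r).card)

lemma Sing_eq {k : ℕ} (X : ℕ) (a h : Fin 3 → Fin k → ℕ) (P : Fin 3 → Finset (Fin (k + 1))) (m : ℕ) :
    Sing X a h P m = Sq (kap P) (QB (fun r => cc (a r)) (fun r => dd (h r)) P m) X := by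
  unfold Sing Sq
  refine prod_congr rfl fun p hp => ?_
  have hp := mem_pz.1 hp
  unfold Gq kap
  have h1 := loc_nu2 a h P m p hp.2
  have h2 : (nu2 (QB (fun r => cc (a r)) (fun r => dd (h r)) P m) p : ℝ) + locN a h P m p = p ^ 2 := by exact_mod_cast h1
  have hp0 : (0 : ℝ) < p := by exact_mod_cast hp.2.pos
  rw [Fin.sum_univ_three]
  congr 1
  rw [eq_sub_iff_add_eq, ← add_div, div_eq_one_iff_eq (by positivity)]
  linarith

open Classical in
lemma W3 {k : ℕ} (a h : Fin 3 → Fin k → ℕ) (P Q : Fin 3 → Finset (Fin (k + 1))) (ε : Fin 3 → Fin (k + 1) → ℤ)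
    (hε : ∀ r i, ε r i = 1 ∨ ε r i = -1) (n : Fin 3 → ℕ) :
    ∏ r, W1 (a r) (h r) (P r) (Q r) (ε r) (n r) =
      (((2 : ℝ) ^ (∑ r, (Q r).card) * if (∀ r, ∀ i ∈ Q r, lam (fm (a r) (h r) (n r) i) = ε r i) then
        ∏ r, ∏ i ∈ P r, vM (fm (a r) (h r) (n r) i) else 0 : ℝ) : ℂ) := by
  have h1 : ∀ r, W1 (a r) (h r) (P r) (Q r) (ε r) (n r) = ((∏ i ∈ P r, vM (fm (a r) (h r) (n r) i) : ℝ) : ℂ) *
      (((if ∀ i ∈ Q r, lam (fm (a r) (h r) (n r) i) = ε r i then 2 ^ (Q r).card else 0 : ℤ)) : ℂ) := by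
    intro r
    unfold W1
    rw [sign_prod (Q r) (ε r) (fun i => lam (fm (a r) (h r) (n r) i)) (hε r) (fun i => lam_val _)]
  rw [prod_congr rfl fun r _ => h1 r, prod_mul_distrib]
  by_cases hh : ∀ r, ∀ i ∈ Q r, lam (fm (a r) (h r) (n r) i) = ε r i
  · rw [if_pos hh]
    have h2 : ∀ r ∈ (univ : Finset (Fin 3)), (((if ∀ i ∈ Q r, lam (fm (a r) (h r) (n r) i) = ε r i then 2 ^ (Q r).card else 0 : ℤ)) : ℂ) =
        2 ^ (Q r).card := by
      intro r _
      rw [if_pos (hh r)]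
      push_cast
      rfl
    rw [prod_congr rfl h2, prod_pow_eq_pow_sum]
    push_cast
    ring
  · rw [if_neg hh]
    push Not at hh
    obtain ⟨r, i, hi, hne⟩ := hh
    have h2 : ∏ r, (((if ∀ i ∈ Q r, lam (fm (a r) (h r) (n r) i) = ε r i then 2 ^ (Q r).card else 0 : ℤ)) : ℂ) = 0 := by
      refine prod_eq_zero (mem_univ r) ?_
      rw [if_neg]
      · simp
      · intro h3
        exact hne (h3 i hi)
    rw [h2]
    simp

open Classical in
theorem ternary (k A K : ℕ) : ∃ X₀ : ℕ, ∀ X : ℕ, X₀ ≤ X → ∃ B ⊆ Bx k X, (B.card : ℝ) ≤ (X : ℝ) ^ k / Real.log X ^ A ∧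
      (∀ h ∈ Bx k X, h ∉ B → ∀ a : Fin k → ℕ, (∀ i, 1 ≤ a i ∧ (a i : ℝ) ≤ Real.log X ^ K) →
        ∀ P Q : Finset (Fin (k + 1)), Disjoint P Q → Q.Nonempty → ∀ x ≤ X, ∀ α : ℝ,
          ‖∑ n ∈ Icc 1 x, ((∏ i ∈ P, vM (fm a h n i) : ℝ) : ℂ) * ((∏ i ∈ Q, lam (fm a h n i) : ℤ) : ℂ) *
            Pool.Agent.H807R2.Dav.ee ((n : ℝ) * α)‖ ≤ (X : ℝ) / Real.log X ^ A) ∧
      (∀ h : Fin 3 → Fin k → ℕ, (∀ r, h r ∈ Bx k X ∧ h r ∉ B) → ∀ a : Fin 3 → Fin k → ℕ,
        (∀ r i, 1 ≤ a r i ∧ (a r i : ℝ) ≤ Real.log X ^ K ∧ (a r i).Coprime (h r i)) →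
        ∀ P Q : Fin 3 → Finset (Fin (k + 1)), (∀ r, Disjoint (P r) (Q r)) →
        ∀ ε : Fin 3 → Fin (k + 1) → ℤ, (∀ r i, ε r i = 1 ∨ ε r i = -1) → ∀ m : ℕ,
        |2 ^ (∑ r, (Q r).card) * ∑ n ∈ (Tri X m).filter (fun n => ∀ r, ∀ i ∈ Q r, lam (fm (a r) (h r) (n r) i) = ε r i),
            ∏ r, ∏ i ∈ P r, vM (fm (a r) (h r) (n r) i) - Sing X a h P m * (Tri X m).card| ≤ (X : ℝ) ^ 2 / Real.log X ^ A) := by
  obtain ⟨X₀, h0⟩ := hlc k A K
  refine ⟨X₀, fun X hX => ?_⟩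
  obtain ⟨B, hB1, hB2, hB3, hB4⟩ := h0 X hX
  refine ⟨B, hB1, hB2, hB3, fun h hh a ha P Q hPQ ε hε m => ?_⟩
  have h5 := hB4 h hh a (fun r i => ⟨(ha r i).1, (ha r i).2.1⟩) P Q hPQ (by
    intro r i _
    unfold cc dd
    refine Fin.cases ?_ (fun i => ?_) i
    · simp
    · simp only [Fin.cons_succ]
      exact (ha r i).2.2) ε hε m
  have e1 : ∑ t ∈ TR X m, W1 (a 0) (h 0) (P 0) (Q 0) (ε 0) t.1 * W1 (a 1) (h 1) (P 1) (Q 1) (ε 1) t.2 *
            W1 (a 2) (h 2) (P 2) (Q 2) (ε 2) (m - t.1 - t.2) =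
      ((2 ^ (∑ r, (Q r).card) * ∑ n ∈ (Tri X m).filter (fun n => ∀ r, ∀ i ∈ Q r, lam (fm (a r) (h r) (n r) i) = ε r i),
            ∏ r, ∏ i ∈ P r, vM (fm (a r) (h r) (n r) i) : ℝ) : ℂ) := by
    rw [← Tri_sum X m (fun x y w => W1 (a 0) (h 0) (P 0) (Q 0) (ε 0) x * W1 (a 1) (h 1) (P 1) (Q 1) (ε 1) y *
            W1 (a 2) (h 2) (P 2) (Q 2) (ε 2) w), mul_sum, sum_filter, Complex.ofReal_sum]
    refine sum_congr rfl fun n _ => ?_
    have h6 := W3 a h P Q ε hε n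
    rw [Fin.prod_univ_three] at h6
    rw [h6]
    congr 1
    split_ifs <;> simp
  rw [e1, ← Sing_eq, ← Tri_card, ← Complex.ofReal_sub, Complex.norm_real, Real.norm_eq_abs] at h5
  exact h5

end Pool.Agent.H76.PT
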