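import Pool.Agent.H76.MU.FamR
import Pool.Agent.H76.MU.Full

set_option autoImplicit false

/-!
The difference of the von Mangoldt function and its sieve model against arbitrary sequences.
-/

namespace Pool.Agent.H76.PT

open Finset Pool.Agent.E8helper66.GB
open Pool.Agent.H807R2.Dav (ee norm_ee ee_add)
open Pool.Agent.E8helper77.GB (ev_log)
open Pool.Agent.H373R2.T7 (lamz pz Vz Vz_pos lamz_nonneg mem_pz sup_diff)
open Pool.Agent.H76.MU (FullAt TII TI dual)

theorem LAM : S_LAM := Pool.Agent.E8helper77.GB.t_LAM TII TI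

theorem LZ : S_LZ := Pool.Agent.E8helper70.GB.t_LZ TII TI

lemma DD_norm (K : ℕ) : ∃ N0 : ℕ, ∀ N : ℕ, N0 ≤ N → ∀ z : ℕ, 1 ≤ z → (z : ℝ) ≤ Real.log N ^ K → ∀ y ∈ Icc 1 N,
    ‖DD z y‖ ≤ 2 * Real.log N := by
  obtain ⟨m4, h4⟩ := lamz_le_log K
  refine ⟨m4, fun N hN z hz hz2 y hy => ?_⟩
  rw [mem_Icc] at hy
  unfold DD
  rw [Complex.norm_real, Real.norm_eq_abs]
  have a1 : |ArithmeticFunction.vonMangoldt y| ≤ Real.log N := by
    rw [abs_of_nonneg ArithmeticFunction.vonMangoldt_nonneg]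
    refine ArithmeticFunction.vonMangoldt_le_log.trans ?_
    apply Real.log_le_log
    · have : 0 < y := by omega
      exact_mod_cast this
    · exact_mod_cast hy.2
  have a2 := h4 N hN z hz hz2 y
  refine (abs_sub _ _).trans ?_
  linarith

/-- the prefix sums -/
lemma pre_DD (V : ℕ) : ∃ B : ℕ, ∀ K : ℕ, ∃ N₀ : ℕ, ∀ N : ℕ, N₀ ≤ N → ∀ z : ℕ, Real.log N ^ B ≤ z → (z : ℝ) ≤ Real.log N ^ K →
    ∀ u ≤ N, ∀ α : ℝ, ‖∑ x ∈ Icc 1 u, DD z x * ee ((x : ℝ) * α)‖ ≤ N / Real.log N ^ V := by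
  obtain ⟨B, hB⟩ := sup_diff (V + 1)
  refine ⟨B, fun K => ?_⟩
  obtain ⟨N₁, h1⟩ := hB (K + 1)
  obtain ⟨N₂, h2⟩ := ev_log (2 * (V + 2)) (2 ^ (V + K + 1) + 2)
  obtain ⟨N₃, h3⟩ := DD_norm K
  refine ⟨max (N₁ * N₁) (max N₂ (max N₃ 4)), fun N hN z hzB hzK u hu α => ?_⟩
  have a1 : N₁ * N₁ ≤ N := (le_max_left _ _).trans hN
  have a2 : N₂ ≤ N := ((le_max_left _ _).trans (le_max_right _ _)).trans hN
  have a3 : N₃ ≤ N := ((le_max_left _ _).trans ((le_max_right _ _).trans (le_max_right _ _))).trans hN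
  have a4 : 4 ≤ N := ((le_max_right _ _).trans ((le_max_right _ _).trans (le_max_right _ _))).trans hN
  obtain ⟨h4, hl⟩ := h2 N a2
  set l : ℝ := Real.log N with hldef
  have hN4 : (4 : ℝ) ≤ N := by exact_mod_cast a4
  have hNpos : (0 : ℝ) < N := by linarith
  have hp : (1 : ℝ) ≤ 2 ^ (V + K + 1) := one_le_pow₀ (by norm_num)
  have hl2 : 2 ≤ l := by linarith
  have hl1 : 1 ≤ l := by linarith
  have hl0 : 0 < l := by linarith
  have hz1 : 1 ≤ z := by
    have : (1 : ℝ) ≤ z := (one_le_pow₀ hl1).trans hzB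
    exact_mod_cast this
  by_cases hsq : (u : ℝ) ≤ √(N : ℝ)
  · have h5 : ‖∑ x ∈ Icc 1 u, DD z x * ee ((x : ℝ) * α)‖ ≤ u * (2 * l) := by
      refine (norm_sum_le _ _).trans ?_
      calc ∑ x ∈ Icc 1 u, ‖DD z x * ee ((x : ℝ) * α)‖ ≤ ∑ x ∈ Icc 1 u, (2 * l) := by
            refine sum_le_sum fun x hx => ?_
            rw [norm_mul, norm_ee, mul_one]
            refine h3 N a3 z hz1 hzK x ?_
            rw [mem_Icc] at hx ⊢
            omega
        _ = u * (2 * l) := by rw [sum_const, Nat.card_Icc, nsmul_eq_mul]; simp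
    refine h5.trans ?_
    rw [le_div_iff₀ (by positivity)]
    have h6 : l ^ (V + 2) ≤ √(N : ℝ) := by
      apply Real.le_sqrt_of_sq_le
      rw [← pow_mul, mul_comm]; exact h4
    calc (u : ℝ) * (2 * l) * l ^ V ≤ √(N : ℝ) * (l * l) * l ^ V := by gcongr
      _ = √(N : ℝ) * l ^ (V + 2) := by rw [pow_add]; ring
      _ ≤ √(N : ℝ) * √(N : ℝ) := by gcongr
      _ = N := Real.mul_self_sqrt hNpos.le
  · push Not at hsq
    have hs1 : 1 ≤ √(N : ℝ) := by rw [Real.one_le_sqrt]; linarith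
    have hupos : (1 : ℝ) < u := hs1.trans_lt hsq
    have h6 : N₁ ≤ u := by
      have h7 : (N₁ : ℝ) ≤ √(N : ℝ) := by
        apply Real.le_sqrt_of_sq_le
        have : ((N₁ * N₁ : ℕ) : ℝ) ≤ N := by exact_mod_cast a1
        push_cast at this
        rw [pow_two]; exact this
      have : (N₁ : ℝ) ≤ u := h7.trans hsq.le
      exact_mod_cast this
    have h8 : l / 2 ≤ Real.log u := by
      have := Real.log_le_log (by linarith) hsq.le
      rw [Real.log_sqrt hNpos.le] at this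
      exact this
    have hu' : (u : ℝ) ≤ N := by exact_mod_cast hu
    have hlu : Real.log u ≤ l := Real.log_le_log (by linarith) hu'
    have hlu0 : 0 ≤ Real.log u := by linarith
    have hg1 : Real.log u ^ B ≤ z := (pow_le_pow_left₀ hlu0 hlu _).trans hzB
    have hpow : ∀ (W n : ℕ), (2 : ℝ) ^ (n + 1) ≤ l → W = n → l ^ n ≤ Real.log u ^ (n + 1) := by
      intro W n hn _
      calc l ^ n = l ^ n * 1 := (mul_one _).symm
        _ ≤ l ^ n * (l / 2 ^ (n + 1)) := by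
            gcongr
            rw [le_div_iff₀ (by positivity)]
            linarith
        _ = (l / 2) ^ (n + 1) := by rw [div_pow, pow_succ l n]; ring
        _ ≤ _ := by gcongr
    have hbig : ∀ n ≤ V + K, (2 : ℝ) ^ (n + 1) ≤ l := by
      intro n hn
      have : (2 : ℝ) ^ (n + 1) ≤ 2 ^ (V + K + 1) := pow_le_pow_right₀ (by norm_num) (by omega)
      linarith
    have hg2 : (z : ℝ) ≤ Real.log u ^ (K + 1) := hzK.trans (hpow K K (hbig K (by omega)) rfl)
    have h9 := h1 u h6 z hg1 hg2 α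
    have h10 : ‖∑ x ∈ Icc 1 u, DD z x * ee ((x : ℝ) * α)‖ ≤ u / Real.log u ^ (V + 1) := h9
    refine h10.trans ?_
    have h11 : l ^ V ≤ Real.log u ^ (V + 1) := hpow V V (hbig V (by omega)) rfl
    calc (u : ℝ) / Real.log u ^ (V + 1) ≤ (u : ℝ) / l ^ V := by gcongr
      _ ≤ N / l ^ V := by gcongr

/-- the difference against arbitrary sequences -/
theorem full_DD (A K' : ℕ) : ∃ B : ℕ, ∀ K : ℕ, ∃ N₀ : ℕ, ∀ N : ℕ, N₀ ≤ N → ∀ z : ℕ, Real.log N ^ B ≤ z →
    (z : ℝ) ≤ Real.log N ^ K → FullAt N (DD z) A K' := by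
  set U : ℕ := 2 * K' + 2 * A with hU
  obtain ⟨U1, m1, h1⟩ := LAM (U + 1)
  obtain ⟨U2, h2⟩ := LZ (U + 1)
  set V : ℕ := max U1 U2 + 1 with hV
  obtain ⟨B, hB⟩ := pre_DD V
  refine ⟨B, fun K => ?_⟩
  obtain ⟨m2, h2⟩ := h2 K
  obtain ⟨m3, h3⟩ := hB K
  obtain ⟨m4, h4⟩ := DD_norm K
  obtain ⟨m5, h5⟩ := ev_log 1 6
  refine ⟨m1 + m2 + m3 + m4 + m5 + 2, fun N hN z hz1 hz2 E κ θ hE hκ => ?_⟩
  obtain ⟨_, hL⟩ := h5 N (by omega)
  set l : ℝ := Real.log N with hldef
  have hl1 : 1 ≤ l := by linarith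
  have hl0 : 0 < l := by linarith
  have hNpos : 1 ≤ N := by omega
  have hN0 : (0 : ℝ) < N := by exact_mod_cast hNpos
  have hz : 1 ≤ z := by
    have : (1 : ℝ) ≤ z := (one_le_pow₀ hl1).trans hz1
    exact_mod_cast this
  have hbd : ∀ y ∈ Icc 1 N, ‖DD z y‖ ≤ l ^ 2 := by
    intro y hy
    refine (h4 N (by omega) z hz hz2 y hy).trans ?_
    nlinarith
  have h6 := dual N (DD z) (l ^ 2) (N / l ^ V) (1 / l ^ U) (l ^ K') hNpos (one_le_pow₀ hl1) (by positivity)
    (by positivity) hbd (h3 N (by omega) z hz1 hz2)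
    (by
      intro E κ θ hE hsup hκ
      rw [mul_one_div]
      have hS : ∀ W ≤ max U1 U2, SupLe N E (N / l ^ W) := by
        intro W hW α
        refine (hsup α).trans ?_
        rw [← mul_div_assoc, div_le_div_iff₀ (by positivity) (by positivity), hV, pow_succ]
        have h7 : l ^ W ≤ l ^ (max U1 U2) := pow_le_pow_right₀ hl1 hW
        have h8 : 0 < l ^ W := by positivity
        have h9 : 6 * (N : ℝ) * l ^ W ≤ N * (l ^ (max U1 U2) * l) := by
          calc 6 * (N : ℝ) * l ^ W = N * (l ^ W * 6) := by ring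
            _ ≤ N * (l ^ (max U1 U2) * l) := by gcongr
        exact h9
      have e1 := h1 N (by omega) E κ θ hE (hS U1 (le_max_left _ _)) hκ
      have e2 := h2 N (by omega) z hz hz2 E κ θ hE (hS U2 (le_max_right _ _)) hκ
      have hsplit : ∑ x ∈ Icc 1 N, DD z x * FF N E κ θ x =
          ∑ x ∈ Icc 1 N, ((ArithmeticFunction.vonMangoldt x : ℝ) : ℂ) * FF N E κ θ x -
          ∑ x ∈ Icc 1 N, ((lamz z x : ℝ) : ℂ) * FF N E κ θ x := by
        rw [← sum_sub_distrib]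
        apply sum_congr rfl
        intro x _
        have : DD z x = ((ArithmeticFunction.vonMangoldt x : ℝ) : ℂ) - ((lamz z x : ℝ) : ℂ) := by
          unfold DD
          push_cast
          ring
        rw [this, sub_mul]
      rw [hsplit]
      refine (norm_sub_le _ _).trans ((add_le_add e1 e2).trans ?_)
      rw [← hldef, pow_succ]
      have hLU : 0 < l ^ U := by positivity
      calc (N : ℝ) ^ 2 / (l ^ U * l) + N ^ 2 / (l ^ U * l) = (2 / l) * (N ^ 2 / l ^ U) := by field_simp; ring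
        _ ≤ 1 * (N ^ 2 / l ^ U) := by
            apply mul_le_mul_of_nonneg_right _ (by positivity)
            rw [div_le_one (by linarith)]
            linarith
        _ = _ := one_mul _)
    E κ θ hE hκ
  have h7 : (N : ℝ) ^ 4 * ((l ^ K') ^ 2 * (1 / l ^ U)) = ((N : ℝ) ^ 2 / l ^ A) ^ 2 := by
    have : l ^ U = (l ^ K') ^ 2 * (l ^ A) ^ 2 := by rw [hU, ← pow_mul, ← pow_mul, ← pow_add]; congr 1; ring
    rw [this]
    field_simp
  rw [h7] at h6
  exact le_of_sq_le_sq h6 (by positivity)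

end Pool.Agent.H76.PT
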