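import Pool.Agent.H76.PT.DDFull

set_option autoImplicit false

/-!
The form `n` itself is added to the forms with almost all constant terms.
-/

namespace Pool.Agent.H76.PT

open Finset Pool.Agent.E8helper66.GB
open Pool.Agent.H807R2.Dav (ee norm_ee ee_add)
open Pool.Agent.E8helper77.GB (ev_log)
open Pool.Agent.H76.MU (FullAt Bx mem_Bx Bx_card tupP)

theorem ins (k r A K : ℕ) : ∃ A' K' X₀ : ℕ, ∀ X : ℕ, X₀ ≤ X → ∀ Q : ℕ, 1 ≤ Q → (Q : ℝ) ≤ Real.log X ^ K →
    ∀ (G : Fin r → ℕ → ℂ) (I : Finset (Fin r)),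
    (∀ j, ∀ x ∈ Icc 1 ((Q + 1) * (2 * X)), ‖G j x‖ ≤ Real.log X ^ K) →
    (∀ j ∈ I, FullAt ((Q + 1) * (2 * X)) (G j) A' K') →
    ∃ B ⊆ Bx k X, (B.card : ℝ) ≤ (X : ℝ) ^ k / Real.log X ^ A ∧
      ∀ h ∈ Bx k X, h ∉ B → ∀ a ∈ Bx k Q, ∀ σ : Fin (k + 1) → Fin r, (∃ i, σ i ∈ I) → ∀ x ≤ X, ∀ α : ℝ,
        ‖∑ n ∈ Icc 1 x, G (σ 0) n * (∏ i : Fin k, G (σ i.succ) (a i * n + h i)) * ee ((n : ℝ) * α)‖ ≤
          (X : ℝ) / Real.log X ^ A := by
  classical
  set A₂ : ℕ := A + K * (k + 1) + 1 with hA₂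
  set A₁ : ℕ := A + K * k + A₂ + 2 with hA₁
  obtain ⟨A', K', X₀, h0⟩ := tupP (k + 1) r A₁ K
  obtain ⟨N₁, h1⟩ := ev_log (A₂ + 1) (2 ^ (k + 3))
  refine ⟨A', K', max X₀ (max N₁ 2), fun X hX Q hQ1 hQ G I hG hI => ?_⟩
  obtain ⟨hbig, hl⟩ := h1 X (((le_max_left _ _).trans (le_max_right _ _)).trans hX)
  have hX2 : 2 ≤ X := ((le_max_right _ _).trans (le_max_right _ _)).trans hX
  set l : ℝ := Real.log X with hldef
  have h2k : (8 : ℝ) ≤ 2 ^ (k + 3) := by
    rw [pow_add]
    have : (1 : ℝ) ≤ 2 ^ k := one_le_pow₀ (by norm_num)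
    nlinarith
  have hl8 : 8 ≤ l := h2k.trans hl
  have hl1 : 1 ≤ l := by linarith
  have hl0 : 0 < l := by linarith
  have hXpos : (0 : ℝ) < X := by positivity
  have hl2 : l ≤ Real.log ((2 * X : ℕ) : ℝ) := by
    rw [hldef]
    apply Real.log_le_log hXpos
    push_cast
    linarith
  have hlK : 1 ≤ l ^ K := one_le_pow₀ hl1
  have hlK2 : l ^ K ≤ Real.log ((2 * X : ℕ) : ℝ) ^ K := pow_le_pow_left₀ hl0.le hl2 _
  obtain ⟨B1, hB1, hB2, hB3⟩ := h0 (2 * X) (by have := (le_max_left X₀ (max N₁ 2)).trans hX; omega) Q hQ1 (hQ.trans hlK2)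
    (fun _ => 1) G I (fun n _ => by rw [norm_one]; exact hlK.trans hlK2)
    (fun j x hx => (hG j x hx).trans hlK2) hI
  set Y : ℕ := ⌊(X : ℝ) / l ^ A₂⌋₊ with hY
  have hYle : (Y : ℝ) ≤ X / l ^ A₂ := Nat.floor_le (by positivity)
  have hXl : 2 ≤ (X : ℝ) / l ^ A₂ := by
    rw [le_div_iff₀ (by positivity)]
    calc 2 * l ^ A₂ ≤ l * l ^ A₂ := by gcongr; linarith
      _ = l ^ (A₂ + 1) := by rw [pow_succ]; ring
      _ ≤ X := hbig
  have hYge : (X : ℝ) / l ^ A₂ ≤ 2 * Y := by
    have := Nat.lt_floor_add_one ((X : ℝ) / l ^ A₂)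
    rw [← hY] at this
    linarith
  have hY1 : 1 ≤ Y := Nat.le_floor (by push_cast; linarith)
  have hYpos : (0 : ℝ) < Y := by exact_mod_cast hY1
  -- products with the coefficients stay below `X`
  have hQY : Q * Y ≤ X := by
    have : ((Q * Y : ℕ) : ℝ) ≤ X := by
      push_cast
      calc (Q : ℝ) * Y ≤ l ^ K * (X / l ^ A₂) := by gcongr
        _ ≤ l ^ A₂ * (X / l ^ A₂) := by
          have : l ^ K ≤ l ^ A₂ := pow_le_pow_right₀ hl1 (by rw [hA₂]; nlinarith)
          gcongr
        _ = X := by field_simp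
    exact_mod_cast this
  set S : (Fin k → ℕ) → Finset (Fin k → ℕ) := fun a => (Bx k X).filter (fun h => ∀ c ∈ Icc 1 Y,
    (Fin.cons c (fun i => a i * c + h i) : Fin (k + 1) → ℕ) ∈ B1) with hS
  have hScard : ∀ a, (S a).card * Y ≤ B1.card := by
    intro a
    have e1 : (S a).card * Y = (S a ×ˢ Icc 1 Y).card := by rw [card_product, Nat.card_Icc, Nat.add_sub_cancel]
    rw [e1]
    refine card_le_card_of_injOn (fun t => (Fin.cons t.2 (fun i => a i * t.2 + t.1 i) : Fin (k + 1) → ℕ)) ?_ ?_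
    · intro t ht
      rw [mem_coe, mem_product, hS, mem_filter] at ht
      exact mem_coe.2 (ht.1.2 t.2 ht.2)
    · rintro ⟨h, c⟩ _ ⟨h', c'⟩ _ he
      dsimp only at he
      have e2 := congrFun he 0
      simp only [Fin.cons_zero] at e2
      subst e2
      have e3 : h = h' := by
        funext i
        have := congrFun he i.succ
        simp only [Fin.cons_succ] at this
        omega
      rw [e3]
  refine ⟨(Bx k Q).biUnion S, ?_, ?_, ?_⟩
  · refine biUnion_subset.2 fun a _ => ?_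
    exact filter_subset _ _
  · have h5 : (((Bx k Q).biUnion S).card : ℝ) * Y ≤ (Q : ℝ) ^ k * B1.card := by
      have h6 : ((Bx k Q).biUnion S).card * Y ≤ Q ^ k * B1.card := by
        calc ((Bx k Q).biUnion S).card * Y ≤ (∑ a ∈ Bx k Q, (S a).card) * Y := Nat.mul_le_mul_right _ card_biUnion_le
          _ = ∑ a ∈ Bx k Q, (S a).card * Y := sum_mul _ _ _
          _ ≤ ∑ a ∈ Bx k Q, B1.card := sum_le_sum fun a _ => hScard a
          _ = Q ^ k * B1.card := by rw [sum_const, Bx_card, smul_eq_mul]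
      exact_mod_cast h6
    have h7 : (B1.card : ℝ) ≤ (2 * X) ^ (k + 1) / l ^ A₁ := by
      refine hB2.trans ?_
      push_cast
      have : l ^ A₁ ≤ Real.log (2 * (X : ℝ)) ^ A₁ := by
        refine pow_le_pow_left₀ hl0.le ?_ _
        have := hl2
        push_cast at this
        exact this
      gcongr
    have h8 : (Q : ℝ) ^ k * B1.card ≤ ((X : ℝ) ^ k / l ^ A) * Y := by
      calc (Q : ℝ) ^ k * B1.card ≤ (l ^ K) ^ k * ((2 * X) ^ (k + 1) / l ^ A₁) := by gcongr
        _ = (2 ^ (k + 1) / l ^ 2) * (((X : ℝ) ^ k / l ^ A) * (X / l ^ A₂)) := by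
          rw [← pow_mul, hA₁, mul_pow, pow_succ (X : ℝ) k, show A + K * k + A₂ + 2 = K * k + A + A₂ + 2 by ring, pow_add, pow_add, pow_add]
          field_simp
          try ring
        _ ≤ (2 ^ (k + 1) / l ^ 2) * (((X : ℝ) ^ k / l ^ A) * (2 * Y)) := by gcongr
        _ = (2 ^ (k + 2) / l ^ 2) * (((X : ℝ) ^ k / l ^ A) * Y) := by rw [pow_succ (2 : ℝ) (k + 1)]; ring
        _ ≤ 1 * (((X : ℝ) ^ k / l ^ A) * Y) := by
          gcongr
          rw [div_le_one (by positivity)]
          calc (2 : ℝ) ^ (k + 2) ≤ 2 ^ (k + 3) := pow_le_pow_right₀ (by norm_num) (by omega)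
            _ ≤ l := hl
            _ ≤ l ^ 2 := by nlinarith
        _ = _ := one_mul _
    exact le_of_mul_le_mul_right (h5.trans h8) hYpos
  · intro h hh hhB a ha σ hσ x hx α
    -- the generic shift
    have h9 : h ∉ S a := fun h9 => hhB (mem_biUnion.2 ⟨a, ha, h9⟩)
    rw [hS, mem_filter, not_and] at h9
    have h10 := h9 hh
    push Not at h10
    obtain ⟨c, hc, hcB⟩ := h10
    rw [mem_Icc] at hc
    have ha' := mem_Bx.1 ha
    have hh' := mem_Bx.1 hh
    have hcX : c ≤ X := by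
      have h11 : Y ≤ Q * Y := Nat.le_mul_of_pos_left _ (by omega)
      omega
    have hcBx : (Fin.cons c (fun i => a i * c + h i) : Fin (k + 1) → ℕ) ∈ Bx (k + 1) (2 * X) := by
      rw [mem_Bx]
      intro i
      refine Fin.cases ?_ (fun i => ?_) i
      · simp only [Fin.cons_zero]
        omega
      · simp only [Fin.cons_succ]
        have h12 : a i * c ≤ Q * Y := Nat.mul_le_mul (ha' i).2 hc.2
        have := hh' i
        omega
    have haBx : (Fin.cons 1 a : Fin (k + 1) → ℕ) ∈ Bx (k + 1) Q := by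
      rw [mem_Bx]
      intro i
      refine Fin.cases ?_ (fun i => ?_) i
      · simp only [Fin.cons_zero]
        omega
      · simp only [Fin.cons_succ]
        exact ha' i
    have hbd : ∀ n ∈ Icc 1 X, ‖G (σ 0) n * (∏ i : Fin k, G (σ i.succ) (a i * n + h i))‖ ≤ l ^ (K * (k + 1)) := by
      intro n hn
      rw [mem_Icc] at hn
      have hXQ : X ≤ Q * X := Nat.le_mul_of_pos_left _ (by omega)
      have hN : (Q + 1) * (2 * X) = 2 * (Q * X) + 2 * X := by ring
      rw [norm_mul, norm_prod]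
      calc ‖G (σ 0) n‖ * ∏ i : Fin k, ‖G (σ i.succ) (a i * n + h i)‖ ≤ l ^ K * ∏ i : Fin k, l ^ K := by
            refine mul_le_mul (hG _ _ ?_) (prod_le_prod (fun _ _ => norm_nonneg _) (fun i _ => hG _ _ ?_))
              (prod_nonneg fun _ _ => norm_nonneg _) (by positivity)
            · rw [mem_Icc, hN]
              omega
            · rw [mem_Icc, hN]
              have h9 : a i * n ≤ Q * X := Nat.mul_le_mul (ha' i).2 hn.2
              have := hh' i
              omega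
        _ = _ := by rw [prod_const, card_univ, Fintype.card_fin, ← pow_mul, ← pow_add]; congr 1; ring
    have hgood : (Y : ℝ) * l ^ (K * (k + 1)) ≤ X / l ^ (A + 1) := by
      calc (Y : ℝ) * l ^ (K * (k + 1)) ≤ (X / l ^ A₂) * l ^ (K * (k + 1)) := by gcongr
        _ = _ := by
          rw [hA₂, show A + K * (k + 1) + 1 = (A + 1) + K * (k + 1) by ring, pow_add]
          field_simp
    have htriv : ∀ u ≤ c, u ≤ X → ‖∑ n ∈ Icc 1 u, G (σ 0) n * (∏ i : Fin k, G (σ i.succ) (a i * n + h i)) * ee ((n : ℝ) * α)‖ ≤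
        X / l ^ (A + 1) := by
      intro u hu huX
      refine le_trans ((norm_sum_le _ _).trans ?_) hgood
      calc ∑ n ∈ Icc 1 u, ‖G (σ 0) n * (∏ i : Fin k, G (σ i.succ) (a i * n + h i)) * ee ((n : ℝ) * α)‖ ≤
            ∑ n ∈ Icc 1 u, l ^ (K * (k + 1)) := by
            refine sum_le_sum fun n hn => ?_
            rw [norm_mul, norm_ee, mul_one]
            refine hbd n ?_
            rw [mem_Icc] at hn ⊢
            omega
        _ = u * l ^ (K * (k + 1)) := by rw [sum_const, Nat.card_Icc, nsmul_eq_mul]; simp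
        _ ≤ Y * l ^ (K * (k + 1)) := by
          have : (u : ℝ) ≤ Y := by exact_mod_cast hu.trans hc.2
          gcongr
    have hAA : (X : ℝ) / l ^ (A + 1) ≤ X / l ^ A := by
      have : l ^ A ≤ l ^ (A + 1) := pow_le_pow_right₀ hl1 (by omega)
      gcongr
    by_cases hxc : x ≤ c
    · exact (htriv x hxc hx).trans hAA
    · push Not at hxc
      have h13 := hB3 _ hcBx hcB _ haBx σ hσ (x - c) (by omega) α
      have e4 : ∑ n ∈ Icc 1 (x - c), (fun _ => (1 : ℂ)) n * (∏ i, G (σ i) ((Fin.cons 1 a : Fin (k + 1) → ℕ) i * n +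
          (Fin.cons c (fun i => a i * c + h i) : Fin (k + 1) → ℕ) i)) * ee ((n : ℝ) * α) =
          ee (-((c : ℝ) * α)) * ∑ n ∈ Ioc c x, G (σ 0) n * (∏ i : Fin k, G (σ i.succ) (a i * n + h i)) * ee ((n : ℝ) * α) := by
        rw [mul_sum]
        refine sum_bij' (fun n _ => n + c) (fun n _ => n - c) ?_ ?_ ?_ ?_ ?_
        · intro n hn
          rw [mem_Icc] at hn
          rw [mem_Ioc]
          omega
        · intro n hn
          rw [mem_Ioc] at hn
          rw [mem_Icc]
          omega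
        · intro n _
          omega
        · intro n hn
          rw [mem_Ioc] at hn
          omega
        · intro n _
          rw [Fin.prod_univ_succ]
          simp only [Fin.cons_zero, Fin.cons_succ, one_mul]
          have e5 : ee ((n : ℝ) * α) = ee (-((c : ℝ) * α)) * ee (((n + c : ℕ) : ℝ) * α) := by
            rw [← ee_add]
            congr 1
            push_cast
            ring
          rw [e5]
          have e6 : ∀ i : Fin k, a i * n + (a i * c + h i) = a i * (n + c) + h i := fun i => by ring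
          simp only [e6]
          ring
      rw [e4, norm_mul, norm_ee, one_mul] at h13
      have e7 : ∑ n ∈ Icc 1 x, G (σ 0) n * (∏ i : Fin k, G (σ i.succ) (a i * n + h i)) * ee ((n : ℝ) * α) =
          ∑ n ∈ Icc 1 c, G (σ 0) n * (∏ i : Fin k, G (σ i.succ) (a i * n + h i)) * ee ((n : ℝ) * α) +
          ∑ n ∈ Ioc c x, G (σ 0) n * (∏ i : Fin k, G (σ i.succ) (a i * n + h i)) * ee ((n : ℝ) * α) := by
        have c1 : Icc 1 x = Ioc 0 x := by ext; simp [Nat.one_le_iff_ne_zero, Nat.pos_iff_ne_zero]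
        have c2 : Icc 1 c = Ioc 0 c := by ext; simp [Nat.one_le_iff_ne_zero, Nat.pos_iff_ne_zero]
        rw [c1, c2]
        exact (sum_Ioc_consecutive _ (Nat.zero_le _) hxc.le).symm
      rw [e7]
      refine (norm_add_le _ _).trans ((add_le_add (htriv c le_rfl hcX) h13).trans ?_)
      have h14 : ((2 * X : ℕ) : ℝ) / Real.log ((2 * X : ℕ) : ℝ) ^ A₁ ≤ 2 * X / l ^ (A + 1) := by
        push_cast
        have h15 : l ^ (A + 1) ≤ Real.log (2 * (X : ℝ)) ^ A₁ := by
          calc l ^ (A + 1) ≤ l ^ A₁ := pow_le_pow_right₀ hl1 (by omega)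
            _ ≤ _ := by
              refine pow_le_pow_left₀ hl0.le ?_ _
              have := hl2
              push_cast at this
              exact this
        gcongr
      refine (add_le_add le_rfl h14).trans ?_
      calc (X : ℝ) / l ^ (A + 1) + 2 * X / l ^ (A + 1) = (3 / l) * (X / l ^ A) := by rw [pow_succ]; field_simp; ring
        _ ≤ 1 * (X / l ^ A) := by
          gcongr
          rw [div_le_one hl0]
          linarith
        _ = _ := one_mul _

end Pool.Agent.H76.PT
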