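import Pool.Agent.H76.VG.Fund2

set_option autoImplicit false

/-!
The local densities of a ternary problem for linear forms.
-/

namespace Pool.Agent.H76.PT

open Finset
open Pool.Agent.H373R2.T7 (pz mem_pz)
open Pool.Agent.H76.VG (nu2 Per2 nu2_le)

section group

variable {F : Type} [AddCommGroup F] [Fintype F] [DecidableEq F]

/-- the bad pairs -/
def bp (Z0 Z1 Z2 : Finset F) (m : F) : Finset (F × F) := univ.filter (fun t => t.1 ∈ Z0 ∨ t.2 ∈ Z1 ∨ m - t.1 - t.2 ∈ Z2)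

lemma cA (Z0 : Finset F) : ((univ : Finset (F × F)).filter (fun t => t.1 ∈ Z0)).card = Z0.card * Fintype.card F := by
  have : (univ : Finset (F × F)).filter (fun t => t.1 ∈ Z0) = Z0 ×ˢ univ := by
    ext t; simp
  rw [this, card_product, card_univ]

lemma cB (Z1 : Finset F) : ((univ : Finset (F × F)).filter (fun t => t.2 ∈ Z1)).card = Z1.card * Fintype.card F := by
  have : (univ : Finset (F × F)).filter (fun t => t.2 ∈ Z1) = univ ×ˢ Z1 := by
    ext t; simp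
  rw [this, card_product, card_univ, mul_comm]

lemma cC (Z2 : Finset F) (m : F) (P : F → Prop) [DecidablePred P] :
    ((univ : Finset (F × F)).filter (fun t => P t.1 ∧ m - t.1 - t.2 ∈ Z2)).card =
      ((univ : Finset (F × F)).filter (fun t => P t.1 ∧ t.2 ∈ Z2)).card := by
  refine card_nbij' (fun t => (t.1, m - t.1 - t.2)) (fun t => (t.1, m - t.1 - t.2)) ?_ ?_ ?_ ?_
  · rintro ⟨x, y⟩ h
    simp only [coe_filter, Set.mem_ofPred_eq, mem_univ, true_and] at h ⊢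
    exact h
  · rintro ⟨x, y⟩ h
    simp only [coe_filter, Set.mem_ofPred_eq, mem_univ, true_and] at h ⊢
    refine ⟨h.1, ?_⟩
    rw [show m - x - (m - x - y) = y by abel]
    exact h.2
  · rintro ⟨x, y⟩ _
    simp only [Prod.mk.injEq, true_and]
    abel
  · rintro ⟨x, y⟩ _
    simp only [Prod.mk.injEq, true_and]
    abel

lemma bp_upper (Z0 Z1 Z2 : Finset F) (m : F) : (bp Z0 Z1 Z2 m).card ≤ (Z0.card + Z1.card + Z2.card) * Fintype.card F := by
  have h1 : bp Z0 Z1 Z2 m ⊆ (univ.filter (fun t : F × F => t.1 ∈ Z0) ∪ univ.filter (fun t : F × F => t.2 ∈ Z1)) ∪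
      univ.filter (fun t : F × F => True ∧ m - t.1 - t.2 ∈ Z2) := by
    intro t ht
    unfold bp at ht
    simp only [mem_filter, mem_univ, true_and, mem_union] at ht ⊢
    tauto
  refine (card_le_card h1).trans ((card_union_le _ _).trans (Nat.add_le_add (card_union_le _ _) le_rfl |>.trans ?_))
  rw [cA, cB, cC Z2 m (fun _ => True)]
  simp only [true_and]
  rw [cB]
  ring_nf
  exact le_rfl

lemma bp_lower (Z0 Z1 Z2 : Finset F) (m : F) : (Z0.card + Z1.card + Z2.card) * Fintype.card F ≤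
    (bp Z0 Z1 Z2 m).card + (Z0.card * Z1.card + Z0.card * Z2.card + Z1.card * Z2.card) := by
  set A := univ.filter (fun t : F × F => t.1 ∈ Z0) with hA
  set B := univ.filter (fun t : F × F => t.2 ∈ Z1) with hB
  set C := univ.filter (fun t : F × F => m - t.1 - t.2 ∈ Z2) with hC
  have hU : bp Z0 Z1 Z2 m = (A ∪ B) ∪ C := by
    ext t
    unfold bp
    simp only [hA, hB, hC, mem_filter, mem_univ, true_and, mem_union]
    tauto
  have cC' : C.card = Z2.card * Fintype.card F := by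
    have h := cC Z2 m (fun _ => True)
    simp only [true_and] at h
    rw [hC, h, cB]
  have hAB : (A ∩ B).card = Z0.card * Z1.card := by
    have : A ∩ B = Z0 ×ˢ Z1 := by
      ext t
      simp [hA, hB]
    rw [this, card_product]
  have hAC : (A ∩ C).card = Z0.card * Z2.card := by
    have e1 : A ∩ C = univ.filter (fun t : F × F => t.1 ∈ Z0 ∧ m - t.1 - t.2 ∈ Z2) := by
      ext t
      simp [hA, hC]
    rw [e1, cC Z2 m (fun x => x ∈ Z0)]
    have : (univ : Finset (F × F)).filter (fun t => t.1 ∈ Z0 ∧ t.2 ∈ Z2) = Z0 ×ˢ Z2 := by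
      ext t
      simp
    rw [this, card_product]
  have hBC : (B ∩ C).card = Z1.card * Z2.card := by
    rw [← card_product]
    refine card_nbij' (fun t => (t.2, m - t.1 - t.2)) (fun t => (m - t.1 - t.2, t.1)) ?_ ?_ ?_ ?_
    · rintro ⟨x, y⟩ h
      rw [hB, hC, mem_coe, mem_inter, mem_filter, mem_filter] at h
      rw [mem_coe, mem_product]
      exact ⟨h.1.2, h.2.2⟩
    · rintro ⟨x, y⟩ h
      rw [mem_coe, mem_product] at h
      rw [hB, hC, mem_coe, mem_inter, mem_filter, mem_filter]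
      refine ⟨⟨mem_univ _, h.1⟩, mem_univ _, ?_⟩
      dsimp only
      rw [show m - (m - x - y) - x = y by abel]
      exact h.2
    · rintro ⟨x, y⟩ _
      simp only [Prod.mk.injEq, and_true]
      abel
    · rintro ⟨x, y⟩ _
      simp only [Prod.mk.injEq, true_and]
      abel
  have k1 := card_union_add_card_inter A B
  have k2 := card_union_add_card_inter (A ∪ B) C
  have k3 : ((A ∪ B) ∩ C).card ≤ (A ∩ C).card + (B ∩ C).card := by
    rw [union_inter_distrib_right]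
    exact card_union_le _ _
  rw [hU]
  have k4 : A.card = Z0.card * Fintype.card F := cA Z0
  have k5 : B.card = Z1.card * Fintype.card F := cB Z1
  have k6 : (Z0.card + Z1.card + Z2.card) * Fintype.card F = A.card + B.card + C.card := by
    rw [k4, k5, cC']; ring
  rw [k6]
  omega

end group

/-- one of the forms is divisible by `p` -/
def bad1 {K : ℕ} (c d : Fin K → ℕ) (P : Finset (Fin K)) (p : ℕ) (n : ℤ) : Prop := ∃ i ∈ P, (p : ℤ) ∣ c i * n + d i

lemma bad1_congr {K : ℕ} (c d : Fin K → ℕ) (P : Finset (Fin K)) (p : ℕ) (n n' : ℤ) (h : (p : ℤ) ∣ n - n') :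
    bad1 c d P p n ↔ bad1 c d P p n' := by
  unfold bad1
  have : ∀ i, ((p : ℤ) ∣ c i * n + d i ↔ (p : ℤ) ∣ c i * n' + d i) := by
    intro i
    refine dvd_iff_dvd_of_dvd_sub ?_
    rw [show (c i * n + d i : ℤ) - (c i * n' + d i) = c i * (n - n') by ring]
    exact Dvd.dvd.mul_left h _
  simp only [this]

/-- the local conditions of the ternary problem -/
def QB {K : ℕ} (c d : Fin 3 → Fin K → ℕ) (P : Fin 3 → Finset (Fin K)) (m p x y : ℕ) : Prop :=
  bad1 (c 0) (d 0) (P 0) p x ∨ bad1 (c 1) (d 1) (P 1) p y ∨ bad1 (c 2) (d 2) (P 2) p (m - x - y)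

lemma QB_per {K : ℕ} (c d : Fin 3 → Fin K → ℕ) (P : Fin 3 → Finset (Fin K)) (m p x y : ℕ) :
    QB c d P m p x y ↔ QB c d P m p (x % p) (y % p) := by
  have ha : (p : ℤ) ∣ x - ((x % p : ℕ) : ℤ) := by
    rw [← Nat.modEq_iff_dvd]; exact Nat.mod_modEq x p
  have hb : (p : ℤ) ∣ y - ((y % p : ℕ) : ℤ) := by
    rw [← Nat.modEq_iff_dvd]; exact Nat.mod_modEq y p
  unfold QB
  rw [bad1_congr _ _ _ _ _ _ ha, bad1_congr _ _ _ _ _ _ hb,
    bad1_congr (c 2) (d 2) (P 2) p (m - x - y : ℤ) (m - ((x % p : ℕ) : ℤ) - ((y % p : ℕ) : ℤ))]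
  rw [show (m - x - y : ℤ) - (m - ((x % p : ℕ) : ℤ) - ((y % p : ℕ) : ℤ)) =
    -((x - ((x % p : ℕ) : ℤ)) + (y - ((y % p : ℕ) : ℤ))) by ring]
  exact dvd_neg.2 (dvd_add ha hb)

/-- the bad classes -/
def ZZ {K : ℕ} (c d : Fin K → ℕ) (P : Finset (Fin K)) (p : ℕ) [Fact p.Prime] : Finset (ZMod p) :=
  univ.filter (fun n => ∃ i ∈ P, (c i : ZMod p) * n + d i = 0)

lemma bad1_iff {K : ℕ} (c d : Fin K → ℕ) (P : Finset (Fin K)) (p : ℕ) [Fact p.Prime] (n : ℤ) :
    bad1 c d P p n ↔ (n : ZMod p) ∈ ZZ c d P p := by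
  unfold bad1 ZZ
  rw [mem_filter]
  simp only [mem_univ, true_and]
  have : ∀ i, ((p : ℤ) ∣ c i * n + d i ↔ (c i : ZMod p) * (n : ZMod p) + d i = 0) := by
    intro i
    rw [← CharP.intCast_eq_zero_iff (ZMod p) p]
    push_cast
    rfl
  simp only [this]

/-- transfer -/
lemma nu2_bp {K : ℕ} (c d : Fin 3 → Fin K → ℕ) (P : Fin 3 → Finset (Fin K)) (m p : ℕ) [Fact p.Prime] :
    nu2 (QB c d P m) p = (bp (ZZ (c 0) (d 0) (P 0) p) (ZZ (c 1) (d 1) (P 1) p) (ZZ (c 2) (d 2) (P 2) p) (m : ZMod p)).card := by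
  classical
  have hiff : ∀ x y : ℕ, QB c d P m p x y ↔ (((x : ZMod p), (y : ZMod p)) : ZMod p × ZMod p) ∈
      bp (ZZ (c 0) (d 0) (P 0) p) (ZZ (c 1) (d 1) (P 1) p) (ZZ (c 2) (d 2) (P 2) p) (m : ZMod p) := by
    intro x y
    unfold QB bp
    rw [mem_filter, bad1_iff, bad1_iff, bad1_iff]
    push_cast
    simp
  have h2 : nu2 (QB c d P m) p = ((range p ×ˢ range p).filter (fun t : ℕ × ℕ => QB c d P m p t.1 t.2)).card := by
    unfold nu2
    congr 1
  rw [h2]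
  refine card_nbij' (fun t => ((t.1 : ZMod p), (t.2 : ZMod p))) (fun u => (u.1.val, u.2.val)) ?_ ?_ ?_ ?_
  · rintro ⟨a, b⟩ ht
    rw [mem_coe, mem_filter] at ht
    exact mem_coe.2 ((hiff a b).1 ht.2)
  · rintro ⟨x, y⟩ ht
    rw [mem_coe] at ht
    rw [mem_coe, mem_filter, mem_product, mem_range, mem_range]
    refine ⟨⟨ZMod.val_lt x, ZMod.val_lt y⟩, ?_⟩
    dsimp only
    rw [hiff, ZMod.natCast_zmod_val, ZMod.natCast_zmod_val]
    exact ht
  · rintro ⟨a, b⟩ ht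
    rw [mem_coe, mem_filter, mem_product, mem_range, mem_range] at ht
    simp only [Prod.mk.injEq]
    exact ⟨ZMod.val_natCast_of_lt ht.1.1, ZMod.val_natCast_of_lt ht.1.2⟩
  · rintro ⟨x, y⟩ _
    simp

lemma ZZ_le {K : ℕ} (c d : Fin K → ℕ) (P : Finset (Fin K)) (hcop : ∀ i ∈ P, (c i).Coprime (d i)) (p : ℕ) [hp : Fact p.Prime] :
    (ZZ c d P p).card ≤ P.card := by
  have h1 : ZZ c d P p ⊆ P.biUnion (fun i => univ.filter (fun n : ZMod p => (c i : ZMod p) * n + d i = 0)) := by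
    intro n hn
    unfold ZZ at hn
    rw [mem_filter] at hn
    obtain ⟨i, hi, h⟩ := hn.2
    rw [mem_biUnion]
    exact ⟨i, hi, by rw [mem_filter]; exact ⟨mem_univ _, h⟩⟩
  refine (card_le_card h1).trans (card_biUnion_le.trans ?_)
  have h2 : ∀ i ∈ P, (univ.filter (fun n : ZMod p => (c i : ZMod p) * n + d i = 0)).card ≤ 1 := by
    intro i hi
    rw [card_le_one]
    intro x hx y hy
    rw [mem_filter] at hx hy
    have h3 : (c i : ZMod p) * (x - y) = 0 := by linear_combination hx.2 - hy.2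
    rcases mul_eq_zero.1 h3 with h4 | h4
    · exfalso
      have h5 := hx.2
      rw [h4, zero_mul, zero_add] at h5
      have h6 : p ∣ c i := (ZMod.natCast_eq_zero_iff _ _).1 h4
      have h7 : p ∣ d i := (ZMod.natCast_eq_zero_iff _ _).1 h5
      exact hp.out.one_lt.ne' (Nat.dvd_one.1 (by
        have := Nat.dvd_gcd h6 h7
        rwa [(hcop i hi)] at this))
    · exact sub_eq_zero.1 h4
  refine (sum_le_sum h2).trans ?_
  simp

lemma ZZ_eq {K : ℕ} (c d : Fin K → ℕ) (P : Finset (Fin K)) (p : ℕ) [hp : Fact p.Prime]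
    (h0 : ∀ i ∈ P, ¬ p ∣ c i) (h1 : ∀ i ∈ P, ∀ j ∈ P, i ≠ j → ¬ (p : ℤ) ∣ c i * d j - c j * d i) :
    (ZZ c d P p).card = P.card := by
  symm
  have hc : ∀ i ∈ P, (c i : ZMod p) ≠ 0 := fun i hi h => h0 i hi ((ZMod.natCast_eq_zero_iff _ _).1 h)
  refine card_bij (fun i _ => -(d i : ZMod p) * (c i : ZMod p)⁻¹) ?_ ?_ ?_
  · intro i hi
    unfold ZZ
    rw [mem_filter]
    refine ⟨mem_univ _, i, hi, ?_⟩
    have := hc i hi
    field_simp
    ring
  · intro i hi j hj h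
    by_contra hij
    apply h1 i hi j hj hij
    rw [← CharP.intCast_eq_zero_iff (ZMod p) p]
    push_cast
    have h2 := hc i hi
    have h3 := hc j hj
    field_simp at h
    linear_combination h
  · intro n hn
    unfold ZZ at hn
    rw [mem_filter] at hn
    obtain ⟨i, hi, h⟩ := hn.2
    refine ⟨i, hi, ?_⟩
    have h2 := hc i hi
    field_simp
    linear_combination -h

/-- the total number of the forms -/
def kap {K : ℕ} (P : Fin 3 → Finset (Fin K)) : ℕ := (P 0).card + (P 1).card + (P 2).card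

lemma nu2_upper {K : ℕ} (c d : Fin 3 → Fin K → ℕ) (P : Fin 3 → Finset (Fin K)) (m p : ℕ) (hp : p.Prime)
    (hcop : ∀ r, ∀ i ∈ P r, (c r i).Coprime (d r i)) : nu2 (QB c d P m) p ≤ kap P * p := by
  have := Fact.mk hp
  rw [nu2_bp]
  refine (bp_upper _ _ _ _).trans ?_
  rw [ZMod.card]
  unfold kap
  have h0 := ZZ_le (c 0) (d 0) (P 0) (hcop 0) p
  have h1 := ZZ_le (c 1) (d 1) (P 1) (hcop 1) p
  have h2 := ZZ_le (c 2) (d 2) (P 2) (hcop 2) p
  gcongr

lemma QB_Per2 {K : ℕ} (c d : Fin 3 → Fin K → ℕ) (P : Fin 3 → Finset (Fin K)) (m : ℕ)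
    (hcop : ∀ r, ∀ i ∈ P r, (c r i).Coprime (d r i)) : Per2 (QB c d P m) (kap P) :=
  ⟨fun p x y => QB_per c d P m p x y, fun p hp => nu2_upper c d P m p hp hcop⟩

lemma nu2_lower {K : ℕ} (c d : Fin 3 → Fin K → ℕ) (P : Fin 3 → Finset (Fin K)) (m p : ℕ) (hp : p.Prime)
    (h0 : ∀ r, ∀ i ∈ P r, ¬ p ∣ c r i) (h1 : ∀ r, ∀ i ∈ P r, ∀ j ∈ P r, i ≠ j → ¬ (p : ℤ) ∣ c r i * d r j - c r j * d r i) :
    kap P * p ≤ nu2 (QB c d P m) p + kap P ^ 2 := by
  have := Fact.mk hp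
  rw [nu2_bp]
  have h2 := bp_lower (ZZ (c 0) (d 0) (P 0) p) (ZZ (c 1) (d 1) (P 1) p) (ZZ (c 2) (d 2) (P 2) p) (m : ZMod p)
  rw [ZMod.card, ZZ_eq _ _ _ p (h0 0) (h1 0), ZZ_eq _ _ _ p (h0 1) (h1 1), ZZ_eq _ _ _ p (h0 2) (h1 2)] at h2
  unfold kap
  nlinarith [Nat.zero_le ((P 0).card * (P 1).card), Nat.zero_le ((P 0).card * (P 2).card), Nat.zero_le ((P 1).card * (P 2).card),
    Nat.zero_le ((P 0).card * (P 0).card), Nat.zero_le ((P 1).card * (P 1).card), Nat.zero_le ((P 2).card * (P 2).card)]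

end Pool.Agent.H76.PT
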