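import Pool.Agent.H76.PT.Sing
import Pool.Agent.H76.VG.FundB
import Pool.Agent.H76.MU.Sets

set_option autoImplicit false

/-!
The main term of the ternary problem.
-/

namespace Pool.Agent.H76.PT

open Finset
open Pool.Agent.E8helper77.GB (ev_log)
open Pool.Agent.H373R2.T7 (pz mem_pz Vz Vz_pos lamz lamz_nonneg Vz_inv_small)
open Pool.Agent.H76.VG (nu2 Per2 nu2_le fund2 Conv card_pf)
open Pool.Agent.H76.MU (Pr)

/-- the pairs `(x, y)` in `[1, X] ^ 2` with `1 ≤ m - x - y ≤ X` -/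
def TR (X m : ℕ) : Finset (ℕ × ℕ) := Pr X m (Icc 1 X) (Icc 1 X)

lemma mem_TR {X m : ℕ} {t : ℕ × ℕ} : t ∈ TR X m ↔ (1 ≤ t.1 ∧ t.1 ≤ X) ∧ (1 ≤ t.2 ∧ t.2 ≤ X) ∧ t.1 + t.2 < m ∧ m ≤ X + t.1 + t.2 := by
  unfold TR Pr
  rw [mem_filter, mem_product, mem_Icc, mem_Icc]
  tauto

lemma TR_conv (X m : ℕ) : Conv (TR X m) X := by
  refine ⟨?_, ?_, ?_⟩
  · rintro ⟨a, b⟩ h
    rw [mem_TR] at h
    rw [mem_product, mem_Icc, mem_Icc]
    exact ⟨h.1, h.2.1⟩
  · intro a
    by_cases ha : 1 ≤ a ∧ a ≤ X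
    · refine ⟨m - (X + a) - 1, min (X + 1) (m - a), fun b => ?_⟩
      rw [mem_TR, mem_Ioo]
      dsimp only
      omega
    · refine ⟨0, 0, fun b => ?_⟩
      rw [mem_TR, mem_Ioo]
      dsimp only
      omega
  · intro b
    by_cases hb : 1 ≤ b ∧ b ≤ X
    · refine ⟨m - (X + b) - 1, min (X + 1) (m - b), fun a => ?_⟩
      rw [mem_TR, mem_Ioo]
      dsimp only
      omega
    · refine ⟨0, 0, fun a => ?_⟩
      rw [mem_TR, mem_Ioo]
      dsimp only
      omega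

lemma TR_card (X m : ℕ) : ((TR X m).card : ℝ) ≤ X ^ 2 := by
  have := card_le_card (TR_conv X m).sub
  rw [card_product, Nat.card_Icc] at this
  have h3 : (TR X m).card ≤ X ^ 2 := by rw [sq]; simpa using this
  exact_mod_cast h3

variable {K : ℕ}

open Classical in
lemma lz_prod (z : ℕ) (c d : Fin K → ℕ) (P : Finset (Fin K)) (n : ℕ) :
    ∏ i ∈ P, lamz z (c i * n + d i) = if ∀ p ∈ pz z, ¬ bad1 c d P p n then ((Vz z)⁻¹) ^ P.card else 0 := by
  have hdvd : ∀ (p : ℕ) (i : Fin K), ((p : ℤ) ∣ c i * n + d i ↔ p ∣ c i * n + d i) := by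
    intro p i
    rw [← Int.natCast_dvd_natCast]
    push_cast
    rfl
  split_ifs with h
  · rw [← prod_const]
    refine prod_congr rfl fun i hi => ?_
    unfold lamz
    rw [if_pos]
    intro p hp hd
    exact h p hp ⟨i, hi, (hdvd p i).2 hd⟩
  · push Not at h
    obtain ⟨p, hp, i, hi, hd⟩ := h
    refine prod_eq_zero hi ?_
    unfold lamz
    rw [if_neg]
    push Not
    exact ⟨p, hp, (hdvd p i).1 hd⟩

/-- the value of the forms -/
noncomputable def LZ3 (z : ℕ) (c d : Fin 3 → Fin K → ℕ) (P : Fin 3 → Finset (Fin K)) (m : ℕ) (t : ℕ × ℕ) : ℝ :=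
  (∏ i ∈ P 0, lamz z (c 0 i * t.1 + d 0 i)) * (∏ i ∈ P 1, lamz z (c 1 i * t.2 + d 1 i)) *
    ∏ i ∈ P 2, lamz z (c 2 i * (m - t.1 - t.2) + d 2 i)

open Classical in
lemma LZ3_eq (z : ℕ) (c d : Fin 3 → Fin K → ℕ) (P : Fin 3 → Finset (Fin K)) (X m : ℕ) :
    ∑ t ∈ TR X m, LZ3 z c d P m t = ((Vz z)⁻¹) ^ kap P * ((TR X m).filter (fun t => ∀ p ∈ pz z, ¬ QB c d P m p t.1 t.2)).card := by
  rw [card_eq_sum_ones, Nat.cast_sum, mul_sum, sum_filter]
  refine sum_congr rfl fun t ht => ?_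
  rw [mem_TR] at ht
  have hc : (((m - t.1 - t.2 : ℕ) : ℕ) : ℤ) = (m : ℤ) - t.1 - t.2 := by omega
  unfold LZ3
  rw [lz_prod, lz_prod, lz_prod, hc]
  by_cases h : ∀ p ∈ pz z, ¬ QB c d P m p t.1 t.2
  · have h0 : ∀ p ∈ pz z, ¬ bad1 (c 0) (d 0) (P 0) p t.1 := fun p hp hb => h p hp (Or.inl hb)
    have h1 : ∀ p ∈ pz z, ¬ bad1 (c 1) (d 1) (P 1) p t.2 := fun p hp hb => h p hp (Or.inr (Or.inl hb))
    have h2 : ∀ p ∈ pz z, ¬ bad1 (c 2) (d 2) (P 2) p (m - t.1 - t.2) := fun p hp hb => h p hp (Or.inr (Or.inr hb))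
    rw [if_pos h0, if_pos h1, if_pos h2, if_pos h]
    unfold kap
    rw [pow_add, pow_add]
    simp
  · rw [if_neg h]
    push Not at h
    obtain ⟨p, hp, hb⟩ := h
    unfold QB at hb
    rcases hb with hb | hb | hb
    · rw [if_neg (fun h => h p hp hb)]; simp
    · rw [if_neg (fun (h : ∀ p ∈ pz z, ¬ bad1 (c 1) (d 1) (P 1) p t.2) => h p hp hb)]; simp
    · rw [if_neg (fun (h : ∀ p ∈ pz z, ¬ bad1 (c 2) (d 2) (P 2) p (m - t.1 - t.2)) => h p hp hb)]; simp

lemma kap_le (P : Fin 3 → Finset (Fin K)) : kap P ≤ 3 * K := by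
  unfold kap
  have h : ∀ r, (P r).card ≤ K := fun r => by simpa using card_le_univ (P r)
  have := h 0
  have := h 1
  have := h 2
  omega

theorem model (K A E : ℕ) : ∃ X₀ : ℕ, ∀ X : ℕ, X₀ ≤ X → ∀ z : ℕ, Real.log X ≤ z → (z : ℝ) ≤ Real.log X ^ E →
    ∀ (c d : Fin 3 → Fin K → ℕ) (P : Fin 3 → Finset (Fin K)) (m : ℕ), (∀ r, ∀ i ∈ P r, (c r i).Coprime (d r i)) →
      |∑ t ∈ TR X m, LZ3 z c d P m t - Sq (kap P) (QB c d P m) z * (TR X m).card| ≤ X ^ 2 / Real.log X ^ A := by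
  classical
  have h0 : ∀ κ : ℕ, ∃ X₀ : ℕ, ∀ X : ℕ, X₀ ≤ X → ∀ z : ℕ, Real.log X ≤ z → (z : ℝ) ≤ Real.log X ^ E →
    ∀ Q : ℕ → ℕ → ℕ → Prop, Per2 Q κ → ∀ S : Finset (ℕ × ℕ), Conv S X →
    |((S.filter (fun t => ∀ p ∈ pz z, ¬ Q p t.1 t.2)).card : ℝ) - S.card * ∏ p ∈ pz z, (1 - (nu2 Q p : ℝ) / p ^ 2)| ≤
      X ^ 2 / Real.log X ^ (A + 3 * K) := fun κ => fund2 κ (A + 3 * K) E
  choose X₁ hX₁ using h0
  obtain ⟨n3, h3⟩ := Vz_inv_small E
  obtain ⟨n4, h4⟩ := ev_log 1 1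
  refine ⟨max ((range (3 * K + 1)).sup X₁) (max n3 n4), fun X hX z hz1 hz2 c d P m hcop => ?_⟩
  simp only [max_le_iff] at hX
  obtain ⟨c0, c1, c2⟩ := hX
  obtain ⟨_, hl1⟩ := h4 X c2
  set l := Real.log X with hl
  have hl0 : 0 < l := by linarith
  have hz1' : 1 ≤ z := by
    have : (1 : ℝ) ≤ z := by linarith
    exact_mod_cast this
  have hκ : kap P ∈ range (3 * K + 1) := by
    rw [mem_range]
    have := kap_le P
    omega
  have hXκ : X₁ (kap P) ≤ X := (le_sup (f := X₁) hκ).trans c0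
  have key := hX₁ (kap P) X hXκ z hz1 hz2 (QB c d P m) (QB_Per2 c d P m hcop) (TR X m) (TR_conv X m)
  have hV := h3 X c1 z hz1' hz2
  have hV0 : 0 < (Vz z)⁻¹ := inv_pos.2 (Vz_pos z)
  rw [LZ3_eq, Sq_eq]
  have e : ((Vz z)⁻¹) ^ kap P * (((TR X m).filter (fun t => ∀ p ∈ pz z, ¬ QB c d P m p t.1 t.2)).card : ℝ) -
      (∏ p ∈ pz z, (1 - (nu2 (QB c d P m) p : ℝ) / p ^ 2)) * ((Vz z)⁻¹) ^ kap P * (TR X m).card =
      ((Vz z)⁻¹) ^ kap P * ((((TR X m).filter (fun t => ∀ p ∈ pz z, ¬ QB c d P m p t.1 t.2)).card : ℝ) -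
        (TR X m).card * ∏ p ∈ pz z, (1 - (nu2 (QB c d P m) p : ℝ) / p ^ 2)) := by ring
  rw [e, abs_mul, abs_of_pos (by positivity)]
  calc ((Vz z)⁻¹) ^ kap P * _ ≤ l ^ (3 * K) * (X ^ 2 / l ^ (A + 3 * K)) := by
        refine mul_le_mul ?_ key (abs_nonneg _) (by positivity)
        exact (pow_le_pow_left₀ hV0.le hV _).trans (pow_le_pow_right₀ hl1 (kap_le P))
    _ = X ^ 2 / l ^ A := by
        rw [pow_add]
        field_simp

/-- the exceptional primes -/
def ExP (c d : Fin 3 → Fin K → ℕ) (P : Fin 3 → Finset (Fin K)) : Finset ℕ :=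
  (univ : Finset (Fin 3)).biUnion (fun r => (P r).biUnion (fun i => (c r i).primeFactors ∪
    (P r).biUnion (fun j => ((c r i * d r j - c r j * d r i : ℤ)).natAbs.primeFactors)))

lemma ExP_card (c d : Fin 3 → Fin K → ℕ) (P : Fin 3 → Finset (Fin K)) (D : ℝ) (hD : 0 ≤ D)
    (h0 : ∀ r, ∀ i ∈ P r, ((c r i).primeFactors.card : ℝ) ≤ D)
    (h1 : ∀ r, ∀ i ∈ P r, ∀ j ∈ P r, (((c r i * d r j - c r j * d r i : ℤ)).natAbs.primeFactors.card : ℝ) ≤ D) :
    ((ExP c d P).card : ℝ) ≤ 3 * (K * (D + K * D)) := by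
  unfold ExP
  have h2 : (((univ : Finset (Fin 3)).biUnion (fun r => (P r).biUnion (fun i => (c r i).primeFactors ∪
    (P r).biUnion (fun j => ((c r i * d r j - c r j * d r i : ℤ)).natAbs.primeFactors)))).card : ℝ) ≤
    ∑ r : Fin 3, (((P r).biUnion (fun i => (c r i).primeFactors ∪
    (P r).biUnion (fun j => ((c r i * d r j - c r j * d r i : ℤ)).natAbs.primeFactors))).card : ℝ) := by
    exact_mod_cast card_biUnion_le
  refine h2.trans ?_
  have hPK : ∀ r, ((P r).card : ℝ) ≤ K := fun r => by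
    have : (P r).card ≤ K := by simpa using card_le_univ (P r)
    exact_mod_cast this
  have h3 : ∀ r ∈ (univ : Finset (Fin 3)), (((P r).biUnion (fun i => (c r i).primeFactors ∪
    (P r).biUnion (fun j => ((c r i * d r j - c r j * d r i : ℤ)).natAbs.primeFactors))).card : ℝ) ≤ K * (D + K * D) := by
    intro r _
    have h4 : (((P r).biUnion (fun i => (c r i).primeFactors ∪
      (P r).biUnion (fun j => ((c r i * d r j - c r j * d r i : ℤ)).natAbs.primeFactors))).card : ℝ) ≤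
      ∑ i ∈ P r, (((c r i).primeFactors ∪
      (P r).biUnion (fun j => ((c r i * d r j - c r j * d r i : ℤ)).natAbs.primeFactors)).card : ℝ) := by
      exact_mod_cast card_biUnion_le
    refine h4.trans ?_
    have h5 : ∀ i ∈ P r, (((c r i).primeFactors ∪
      (P r).biUnion (fun j => ((c r i * d r j - c r j * d r i : ℤ)).natAbs.primeFactors)).card : ℝ) ≤ D + K * D := by
      intro i hi
      have h6 : (((c r i).primeFactors ∪
        (P r).biUnion (fun j => ((c r i * d r j - c r j * d r i : ℤ)).natAbs.primeFactors)).card : ℝ) ≤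
        ((c r i).primeFactors.card : ℝ) +
        (((P r).biUnion (fun j => ((c r i * d r j - c r j * d r i : ℤ)).natAbs.primeFactors)).card : ℝ) := by
        exact_mod_cast card_union_le _ _
      have h7 : (((P r).biUnion (fun j => ((c r i * d r j - c r j * d r i : ℤ)).natAbs.primeFactors)).card : ℝ) ≤
        ∑ j ∈ P r, ((((c r i * d r j - c r j * d r i : ℤ)).natAbs.primeFactors).card : ℝ) := by
        exact_mod_cast card_biUnion_le
      have h8 : ∑ j ∈ P r, ((((c r i * d r j - c r j * d r i : ℤ)).natAbs.primeFactors).card : ℝ) ≤ ∑ j ∈ P r, D :=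
        sum_le_sum fun j hj => h1 r i hi j hj
      rw [sum_const, nsmul_eq_mul] at h8
      have h9 : ((P r).card : ℝ) * D ≤ K * D := mul_le_mul_of_nonneg_right (hPK r) hD
      have := h0 r i hi
      linarith
    refine (sum_le_sum h5).trans ?_
    rw [sum_const, nsmul_eq_mul]
    exact mul_le_mul_of_nonneg_right (hPK r) (by positivity)
  refine (sum_le_sum h3).trans ?_
  rw [sum_const, card_univ, Fintype.card_fin, nsmul_eq_mul]
  norm_num

lemma cs_mono {κ κ' : ℕ} (h : κ ≤ κ') : cs κ ≤ cs κ' := by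
  unfold cs
  have h1 : (2 : ℝ) ^ κ ≤ 2 ^ κ' := pow_le_pow_right₀ (by norm_num) h
  have h2 : (κ : ℝ) ≤ κ' := by exact_mod_cast h
  gcongr

/-- the main term with the complete singular series -/
theorem modelX (K A : ℕ) : ∃ E0 : ℕ, ∀ E : ℕ, E0 ≤ E → ∃ X₀ : ℕ, ∀ X : ℕ, X₀ ≤ X → ∀ z : ℕ, Real.log X ^ E ≤ z →
    (z : ℝ) ≤ Real.log X ^ (E + 1) →
    ∀ (c d : Fin 3 → Fin K → ℕ) (P : Fin 3 → Finset (Fin K)) (m : ℕ), (∀ r, ∀ i ∈ P r, (c r i).Coprime (d r i)) →
      (∀ r, ∀ i ∈ P r, 1 ≤ c r i ∧ c r i ≤ X ∧ d r i ≤ X) →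
      (∀ r, ∀ i ∈ P r, ∀ j ∈ P r, i ≠ j → (c r i * d r j : ℤ) ≠ c r j * d r i) →
      |∑ t ∈ TR X m, LZ3 z c d P m t - Sq (kap P) (QB c d P m) X * (TR X m).card| ≤ X ^ 2 / Real.log X ^ A := by
  classical
  refine ⟨A + 3 * K + 4, fun E hE => ?_⟩
  obtain ⟨X₁, h1⟩ := model K (A + 1) (E + 1)
  obtain ⟨n3, h3⟩ := Vz_inv_small (E + 1)
  obtain ⟨n4, h4⟩ := ev_log (E + 1) (2 * (cs (3 * K) * (1 + 3 * (K * (8 + K * 8)))) + 2)
  refine ⟨max X₁ (max n3 (max n4 2)), fun X hX z hz1 hz2 c d P m hcop hsz hne => ?_⟩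
  simp only [max_le_iff] at hX
  obtain ⟨c0, c1, c2, c3⟩ := hX
  obtain ⟨hbig, hl⟩ := h4 X c2
  set l := Real.log X with hldef
  have hcs : 0 ≤ cs (3 * K) := by unfold cs; positivity
  have hcst : 0 ≤ cs (3 * K) * (1 + 3 * (K * (8 + K * 8))) := by positivity
  have hl2 : 2 ≤ l := by linarith
  have hl1 : 1 ≤ l := by linarith
  have hl0 : 0 < l := by linarith
  have hE1 : (1 : ℝ) ≤ l ^ E := one_le_pow₀ hl1
  have hz1' : 1 ≤ z := by
    have : (1 : ℝ) ≤ z := by linarith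
    exact_mod_cast this
  have hz0 : (0 : ℝ) < z := by exact_mod_cast hz1'
  have hlz : l ≤ z := by
    calc l = l ^ 1 := (pow_one l).symm
      _ ≤ l ^ E := pow_le_pow_right₀ hl1 (by omega)
      _ ≤ z := hz1
  have hzX : z ≤ X := by
    have : (z : ℝ) ≤ X := hz2.trans hbig
    exact_mod_cast this
  have hX1 : 1 ≤ X := by omega
  have hX0 : (0 : ℝ) < X := by exact_mod_cast hX1
  have key := h1 X c0 z hlz hz2 c d P m hcop
  have hV := h3 X c1 z hz1' hz2
  have hV0 : 0 < (Vz z)⁻¹ := inv_pos.2 (Vz_pos z)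
  -- the exceptional primes
  have hpf : ∀ n : ℕ, n ≤ X ^ 2 → (n.primeFactors.card : ℝ) ≤ 8 * l := by
    intro n hn
    rcases Nat.eq_zero_or_pos n with h | h
    · rw [h]; simp; linarith
    · have h5 := card_pf n h
      have h6 : Real.log n ≤ 2 * l := by
        have : Real.log n ≤ Real.log ((X : ℝ) ^ 2) := Real.log_le_log (by exact_mod_cast h) (by exact_mod_cast hn)
        rwa [Real.log_pow] at this
      have h7 := Real.log_two_gt_d9
      have h8 : (0 : ℝ) ≤ n.primeFactors.card := Nat.cast_nonneg _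
      nlinarith
  have hEx : ((ExP c d P).card : ℝ) ≤ 3 * (K * (8 * l + K * (8 * l))) := by
    refine ExP_card c d P (8 * l) (by positivity) (fun r i hi => hpf _ ?_) (fun r i hi j hj => hpf _ ?_)
    · have := (hsz r i hi).2.1
      nlinarith
    · obtain ⟨_, h5, h6⟩ := hsz r i hi
      obtain ⟨_, h7, h8⟩ := hsz r j hj
      have h9 : c r i * d r j ≤ X ^ 2 := by rw [sq]; exact Nat.mul_le_mul h5 h8
      have h10 : c r j * d r i ≤ X ^ 2 := by rw [sq]; exact Nat.mul_le_mul h7 h6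
      have h11 : (c r i * d r j : ℤ) ≤ X ^ 2 := by exact_mod_cast h9
      have h12 : (c r j * d r i : ℤ) ≤ X ^ 2 := by exact_mod_cast h10
      have h13 : (0 : ℤ) ≤ c r i * d r j := by positivity
      have h14 : (0 : ℤ) ≤ c r j * d r i := by positivity
      have h15 : (((c r i * d r j - c r j * d r i : ℤ)).natAbs : ℤ) ≤ (X : ℤ) ^ 2 := by
        rw [Int.natCast_natAbs, abs_le]
        constructor <;> linarith
      exact_mod_cast h15
  have hgood : ∀ p, p.Prime → p ∉ ExP c d P → kap P * p ≤ nu2 (QB c d P m) p + kap P ^ 2 := by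
    intro p hp hpE
    unfold ExP at hpE
    simp only [mem_biUnion, mem_univ, true_and, mem_union, not_exists, not_and, not_or, Nat.mem_primeFactors, ne_eq] at hpE
    refine nu2_lower c d P m p hp (fun r i hi hd => ?_) (fun r i hi j hj hij hd => ?_)
    · have h5 := (hpE r i hi).1 hp hd
      have h6 := (hsz r i hi).1
      omega
    · have h5 := (hpE r i hi).2 j hj hp (by
        have := Int.natAbs_dvd_natAbs.2 hd
        simpa using this)
      have h6 := hne r i hi j hj hij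
      apply h5
      rw [Int.natAbs_eq_zero, sub_eq_zero]
      exact h6
  have hκ := kap_le P
  have hD : cs (kap P) * (1 + ((ExP c d P).card : ℝ)) ≤ (cs (3 * K) * (1 + 3 * (K * (8 + K * 8)))) * l := by
    have h5 : 1 + ((ExP c d P).card : ℝ) ≤ (1 + 3 * (K * (8 + K * 8))) * l := by
      have : (1 + 3 * (K * (8 + K * 8))) * l = l + 3 * (K * (8 * l + K * (8 * l))) := by ring
      rw [this]
      linarith
    calc cs (kap P) * (1 + ((ExP c d P).card : ℝ)) ≤ cs (3 * K) * ((1 + 3 * (K * (8 + K * 8))) * l) := by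
          refine mul_le_mul (cs_mono hκ) h5 (by positivity) hcs
      _ = _ := by ring
  have hDl : cs (kap P) * (1 + ((ExP c d P).card : ℝ)) ≤ l ^ 2 / 2 := by
    refine hD.trans ?_
    rw [sq]
    have : (cs (3 * K) * (1 + 3 * (K * (8 + K * 8)))) ≤ l / 2 := by linarith
    calc (cs (3 * K) * (1 + 3 * (K * (8 + K * 8)))) * l ≤ (l / 2) * l := by gcongr
      _ = _ := by ring
  have hzbig : l ^ (A + 3 * K + 4) ≤ z := (pow_le_pow_right₀ hl1 hE).trans hz1
  have h20 := Sq_near (κ := kap P) (X := X) (z := z) (Q := QB c d P m) (ExP c d P) hz1' hzX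
    (fun p hp => nu2_upper c d P m p hp hcop) hgood (by
      refine hDl.trans ?_
      have h5 : l ^ 2 ≤ l ^ (A + 3 * K + 4) := pow_le_pow_right₀ hl1 (by omega)
      have h6 : 0 ≤ l ^ 2 := by positivity
      linarith)
  have h21 : |Sq (kap P) (QB c d P m) X - Sq (kap P) (QB c d P m) z| * (TR X m).card ≤ X ^ 2 / l ^ (A + 1) := by
    have h22 : Sq (kap P) (QB c d P m) z ≤ l ^ (3 * K) :=
      (Sq_upper _ _ _).trans ((pow_le_pow_left₀ hV0.le hV _).trans (pow_le_pow_right₀ hl1 hκ))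
    have h23 : 2 * ((cs (kap P) * (1 + ((ExP c d P).card : ℝ))) / z) ≤ l ^ 2 / l ^ (A + 3 * K + 4) := by
      calc 2 * ((cs (kap P) * (1 + ((ExP c d P).card : ℝ))) / z) ≤ 2 * ((l ^ 2 / 2) / z) := by gcongr
        _ = l ^ 2 / z := by ring
        _ ≤ _ := by gcongr
    calc |Sq (kap P) (QB c d P m) X - Sq (kap P) (QB c d P m) z| * (TR X m).card ≤
        (l ^ (3 * K) * (l ^ 2 / l ^ (A + 3 * K + 4))) * X ^ 2 := by
          refine mul_le_mul (h20.trans (mul_le_mul h22 h23 (by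
            have : 0 ≤ cs (kap P) := by unfold cs; positivity
            positivity) (by positivity))) (TR_card X m) (Nat.cast_nonneg _) (by positivity)
      _ = X ^ 2 / l ^ (A + 2) := by
          rw [show A + 3 * K + 4 = 3 * K + 2 + (A + 2) by ring, pow_add, pow_add]
          field_simp
      _ ≤ X ^ 2 / l ^ (A + 1) := by
          have : l ^ (A + 1) ≤ l ^ (A + 2) := pow_le_pow_right₀ hl1 (by omega)
          gcongr
  have e : ∑ t ∈ TR X m, LZ3 z c d P m t - Sq (kap P) (QB c d P m) X * (TR X m).card =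
      (∑ t ∈ TR X m, LZ3 z c d P m t - Sq (kap P) (QB c d P m) z * (TR X m).card) -
      (Sq (kap P) (QB c d P m) X - Sq (kap P) (QB c d P m) z) * (TR X m).card := by ring
  rw [e]
  refine (abs_sub _ _).trans ?_
  rw [abs_mul, abs_of_nonneg (Nat.cast_nonneg (α := ℝ) (TR X m).card)]
  refine (add_le_add key h21).trans ?_
  calc (X : ℝ) ^ 2 / l ^ (A + 1) + X ^ 2 / l ^ (A + 1) = (2 / l) * (X ^ 2 / l ^ A) := by rw [pow_succ]; field_simp; ring
    _ ≤ 1 * (X ^ 2 / l ^ A) := by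
        gcongr
        rw [div_le_one hl0]
        exact hl2
    _ = _ := one_mul _

end Pool.Agent.H76.PT
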