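import Pool.Agent.H76.PT.Loc
import Pool.Agent.H76.VG.Sing

set_option autoImplicit false

/-!
Singular series for general local conditions in two variables.
-/

namespace Pool.Agent.H76.PT

open Finset
open Pool.Agent.H373R2.T7 (pz mem_pz Vz Vz_pos)
open Pool.Agent.H76.VG (nu2 Per2 nu2_le fac2)

/-- the local factor -/
noncomputable def Gq (κ : ℕ) (Q : ℕ → ℕ → ℕ → Prop) (p : ℕ) : ℝ := (1 - (nu2 Q p : ℝ) / p ^ 2) / (1 - 1 / (p : ℝ)) ^ κ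

/-- the product of the local factors -/
noncomputable def Sq (κ : ℕ) (Q : ℕ → ℕ → ℕ → Prop) (z : ℕ) : ℝ := ∏ p ∈ pz z, Gq κ Q p

lemma pw (κ : ℕ) (x : ℝ) (h0 : 0 ≤ x) (h1 : x ≤ 1) : 1 - κ * x ≤ (1 - x) ^ κ ∧ (1 - x) ^ κ ≤ 1 - κ * x + κ ^ 2 * x ^ 2 ∧
    (1 - x) ^ κ ≤ 1 := by
  refine ⟨?_, ?_, pow_le_one₀ (by linarith) (by linarith)⟩
  · have h := one_add_mul_le_pow (a := -x) (by linarith) κ
    rw [show (1 : ℝ) + -x = 1 - x by ring] at h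
    linarith
  · induction κ with
    | zero => simp
    | succ n ih =>
      rw [pow_succ]
      have h2 : (1 - x) ^ n * (1 - x) ≤ (1 - n * x + n ^ 2 * x ^ 2) * (1 - x) := mul_le_mul_of_nonneg_right ih (by linarith)
      refine h2.trans ?_
      push_cast
      have h3 : (0 : ℝ) ≤ n := Nat.cast_nonneg n
      nlinarith [mul_nonneg h3 (pow_nonneg h0 2), mul_nonneg (mul_nonneg h3 h3) (pow_nonneg h0 3), pow_nonneg h0 2]

lemma inv_le_half {p : ℕ} (hp : p.Prime) : 0 < 1 / (p : ℝ) ∧ 1 / (p : ℝ) ≤ 1 / 2 := by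
  have h2 : (2 : ℝ) ≤ p := by exact_mod_cast hp.two_le
  exact ⟨by positivity, one_div_le_one_div_of_le (by norm_num) h2⟩

lemma den_pos (κ : ℕ) {p : ℕ} (hp : p.Prime) : 1 / 2 ^ κ ≤ (1 - 1 / (p : ℝ)) ^ κ := by
  obtain ⟨h0, h1⟩ := inv_le_half hp
  rw [one_div, ← inv_pow]
  apply pow_le_pow_left₀ (by norm_num)
  rw [← one_div]
  linarith

lemma nu_x {Q : ℕ → ℕ → ℕ → Prop} {p : ℕ} (hp : p.Prime) (κ : ℕ) (h : nu2 Q p ≤ κ * p) :
    0 ≤ (nu2 Q p : ℝ) / p ^ 2 ∧ (nu2 Q p : ℝ) / p ^ 2 ≤ κ * (1 / (p : ℝ)) := by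
  have hp0 : (0 : ℝ) < p := by exact_mod_cast hp.pos
  refine ⟨by positivity, ?_⟩
  have h1 : (nu2 Q p : ℝ) ≤ κ * p := by exact_mod_cast h
  calc (nu2 Q p : ℝ) / p ^ 2 ≤ ((κ : ℝ) * p) / p ^ 2 := by gcongr
    _ = _ := by field_simp

lemma Gq_sub {Q : ℕ → ℕ → ℕ → Prop} {p : ℕ} (hp : p.Prime) (κ : ℕ) :
    |Gq κ Q p - 1| ≤ 2 ^ κ * |1 - (nu2 Q p : ℝ) / p ^ 2 - (1 - 1 / (p : ℝ)) ^ κ| := by
  have h1 := den_pos κ hp
  have h2 : (0 : ℝ) < 1 / 2 ^ κ := by positivity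
  have h3 : 0 < (1 - 1 / (p : ℝ)) ^ κ := by linarith
  unfold Gq
  rw [div_sub_one h3.ne', abs_div, abs_of_pos h3, div_le_iff₀ h3]
  have h4 : 1 ≤ 2 ^ κ * (1 - 1 / (p : ℝ)) ^ κ := by
    have := mul_le_mul_of_nonneg_left h1 (by positivity : (0 : ℝ) ≤ 2 ^ κ)
    rwa [mul_one_div_cancel (by positivity : (2 : ℝ) ^ κ ≠ 0)] at this
  calc |1 - (nu2 Q p : ℝ) / p ^ 2 - (1 - 1 / (p : ℝ)) ^ κ| = 1 * |1 - (nu2 Q p : ℝ) / p ^ 2 - (1 - 1 / (p : ℝ)) ^ κ| := (one_mul _).symm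
    _ ≤ (2 ^ κ * (1 - 1 / (p : ℝ)) ^ κ) * |1 - (nu2 Q p : ℝ) / p ^ 2 - (1 - 1 / (p : ℝ)) ^ κ| := by gcongr
    _ = _ := by ring

lemma Gq_near1 {Q : ℕ → ℕ → ℕ → Prop} {p : ℕ} (hp : p.Prime) (κ : ℕ) (h : nu2 Q p ≤ κ * p) :
    |Gq κ Q p - 1| ≤ 2 ^ κ * κ * (1 / (p : ℝ)) := by
  obtain ⟨h0, h1⟩ := inv_le_half hp
  obtain ⟨h2, h3⟩ := nu_x hp κ h
  obtain ⟨h4, _, h5⟩ := pw κ (1 / (p : ℝ)) h0.le (by linarith)
  refine (Gq_sub hp κ).trans ?_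
  rw [mul_assoc]
  apply mul_le_mul_of_nonneg_left _ (by positivity)
  rw [abs_le]
  constructor <;> linarith

lemma Gq_near2 {Q : ℕ → ℕ → ℕ → Prop} {p : ℕ} (hp : p.Prime) (κ : ℕ) (h : nu2 Q p ≤ κ * p) (h' : κ * p ≤ nu2 Q p + κ ^ 2) :
    |Gq κ Q p - 1| ≤ 2 ^ κ * κ ^ 2 * (1 / (p : ℝ)) ^ 2 := by
  obtain ⟨h0, h1⟩ := inv_le_half hp
  obtain ⟨h2, h3⟩ := nu_x hp κ h
  obtain ⟨h4, h6, h5⟩ := pw κ (1 / (p : ℝ)) h0.le (by linarith)
  have hp0 : (0 : ℝ) < p := by exact_mod_cast hp.pos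
  have h7 : (κ : ℝ) * (1 / (p : ℝ)) ≤ (nu2 Q p : ℝ) / p ^ 2 + κ ^ 2 * (1 / (p : ℝ)) ^ 2 := by
    have h8 : (κ : ℝ) * p ≤ nu2 Q p + κ ^ 2 := by exact_mod_cast h'
    have h9 : (κ : ℝ) * (1 / (p : ℝ)) = (κ * p) / p ^ 2 := by field_simp
    have h10 : (nu2 Q p : ℝ) / p ^ 2 + κ ^ 2 * (1 / (p : ℝ)) ^ 2 = (nu2 Q p + κ ^ 2) / p ^ 2 := by field_simp
    rw [h9, h10]
    gcongr
  refine (Gq_sub hp κ).trans ?_
  rw [mul_assoc]
  apply mul_le_mul_of_nonneg_left _ (by positivity)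
  rw [abs_le]
  constructor <;> linarith

lemma Gq_nonneg {Q : ℕ → ℕ → ℕ → Prop} {p : ℕ} (hp : p.Prime) (κ : ℕ) : 0 ≤ Gq κ Q p := by
  unfold Gq
  have h1 := den_pos κ hp
  have h2 : (0 : ℝ) < 1 / 2 ^ κ := by positivity
  exact div_nonneg (fac2 _ p hp).1 (by linarith)

lemma Sq_nonneg (κ : ℕ) (Q : ℕ → ℕ → ℕ → Prop) (z : ℕ) : 0 ≤ Sq κ Q z :=
  prod_nonneg fun _ hp => Gq_nonneg (mem_pz.1 hp).2 κ

lemma Sq_eq (κ : ℕ) (Q : ℕ → ℕ → ℕ → Prop) (z : ℕ) : Sq κ Q z = (∏ p ∈ pz z, (1 - (nu2 Q p : ℝ) / p ^ 2)) * ((Vz z)⁻¹) ^ κ := by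
  unfold Sq Gq Vz
  rw [prod_div_distrib, prod_pow, div_eq_mul_inv, inv_pow]

lemma Sq_upper (κ : ℕ) (Q : ℕ → ℕ → ℕ → Prop) (z : ℕ) : Sq κ Q z ≤ ((Vz z)⁻¹) ^ κ := by
  rw [Sq_eq]
  have h1 : ∏ p ∈ pz z, (1 - (nu2 Q p : ℝ) / p ^ 2) ≤ 1 :=
    prod_le_one (fun p hp => (fac2 _ p (mem_pz.1 hp).2).1) (fun p hp => (fac2 _ p (mem_pz.1 hp).2).2)
  have h2 : 0 ≤ ((Vz z)⁻¹) ^ κ := by have := Vz_pos z; positivity
  calc _ ≤ 1 * ((Vz z)⁻¹) ^ κ := mul_le_mul_of_nonneg_right h1 h2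
    _ = _ := one_mul _

/-- the constant -/
def cs (κ : ℕ) : ℝ := 2 ^ κ * (κ ^ 2 + κ)

lemma Sq_near {κ X z : ℕ} {Q : ℕ → ℕ → ℕ → Prop} (Ex : Finset ℕ) (hz : 1 ≤ z) (hzX : z ≤ X)
    (h : ∀ p, p.Prime → nu2 Q p ≤ κ * p) (h' : ∀ p, p.Prime → p ∉ Ex → κ * p ≤ nu2 Q p + κ ^ 2)
    (hs : cs κ * (1 + Ex.card) ≤ z) :
    |Sq κ Q X - Sq κ Q z| ≤ Sq κ Q z * (2 * ((cs κ * (1 + Ex.card)) / z)) := by
  classical
  have hz0 : (0 : ℝ) < z := by exact_mod_cast hz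
  set M := (pz X).filter (fun p => z < p) with hM
  have hsplit : pz X = pz z ∪ M := by
    ext p
    rw [mem_union, hM, mem_filter, mem_pz, mem_pz]
    constructor
    · rintro ⟨h1, h2⟩
      rcases Nat.lt_or_ge z p with h | h
      · exact Or.inr ⟨⟨h1, h2⟩, h⟩
      · exact Or.inl ⟨h, h2⟩
    · rintro (⟨h1, h2⟩ | ⟨h1, _⟩)
      · exact ⟨by omega, h2⟩
      · exact h1
  have hdisj : Disjoint (pz z) M := by
    rw [disjoint_left]
    intro p hp hp'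
    rw [hM, mem_filter] at hp'
    have := (mem_pz.1 hp).1
    omega
  have e1 : Sq κ Q X = Sq κ Q z * ∏ p ∈ M, Gq κ Q p := by
    unfold Sq
    rw [hsplit, prod_union hdisj]
  have e2 : Sq κ Q X - Sq κ Q z = Sq κ Q z * (∏ p ∈ M, Gq κ Q p - 1) := by
    rw [e1]; ring
  rw [e2, abs_mul, abs_of_nonneg (Sq_nonneg _ _ _)]
  apply mul_le_mul_of_nonneg_left _ (Sq_nonneg _ _ _)
  set B : ℝ := (cs κ * (1 + Ex.card)) / z with hB
  have hcs : 0 ≤ cs κ := by unfold cs; positivity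
  have hB0 : 0 ≤ B := by
    rw [hB]
    exact div_nonneg (mul_nonneg hcs (add_nonneg zero_le_one (Nat.cast_nonneg _))) hz0.le
  have hB1 : B ≤ 1 := by rw [hB, div_le_one hz0]; exact hs
  have hc1 : (2 : ℝ) ^ κ * κ ^ 2 ≤ cs κ := by
    unfold cs
    have : (0 : ℝ) ≤ 2 ^ κ * κ := by positivity
    nlinarith
  have hc2 : (2 : ℝ) ^ κ * κ ≤ cs κ := by
    unfold cs
    have : (0 : ℝ) ≤ 2 ^ κ * κ ^ 2 := by positivity
    nlinarith
  have hsum : ∑ p ∈ M, ‖Gq κ Q p - 1‖ ≤ B := by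
    have hpt : ∀ p ∈ M, ‖Gq κ Q p - 1‖ ≤ cs κ * ((p : ℝ) ^ 2)⁻¹ + (if p ∈ Ex then cs κ * (1 / (z : ℝ)) else 0) := by
      intro p hp
      rw [hM, mem_filter] at hp
      have hpp := (mem_pz.1 hp.1).2
      have hp0 : (0 : ℝ) < p := by exact_mod_cast hpp.pos
      rw [Real.norm_eq_abs]
      have hinv : (1 / (p : ℝ)) ^ 2 = ((p : ℝ) ^ 2)⁻¹ := by rw [one_div, inv_pow]
      by_cases hpE : p ∈ Ex
      · rw [if_pos hpE]
        have h4 : 1 / (p : ℝ) ≤ 1 / z := one_div_le_one_div_of_le hz0 (by exact_mod_cast hp.2.le)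
        have h5 : 0 ≤ cs κ * ((p : ℝ) ^ 2)⁻¹ := by positivity
        have h6 := Gq_near1 hpp κ (h p hpp)
        have h7 : (2 : ℝ) ^ κ * κ * (1 / (p : ℝ)) ≤ cs κ * (1 / (z : ℝ)) := by gcongr
        linarith
      · rw [if_neg hpE, add_zero, ← hinv]
        refine (Gq_near2 hpp κ (h p hpp) (h' p hpp hpE)).trans ?_
        gcongr
    refine (sum_le_sum hpt).trans ?_
    rw [sum_add_distrib, ← mul_sum]
    have s1 : ∑ p ∈ M, ((p : ℝ) ^ 2)⁻¹ ≤ 1 / z := by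
      have e := sum_Ioc_inv_sq_le_sub (α := ℝ) (k := z) (n := X) (by omega) hzX
      have e2 : ∑ p ∈ M, ((p : ℝ) ^ 2)⁻¹ ≤ ∑ i ∈ Ioc z X, ((i : ℝ) ^ 2)⁻¹ := by
        apply sum_le_sum_of_subset_of_nonneg _ (fun _ _ _ => by positivity)
        intro p hp
        rw [hM, mem_filter, mem_pz] at hp
        rw [mem_Ioc]
        exact ⟨hp.2, hp.1.1⟩
      have h5 : (0 : ℝ) ≤ (X : ℝ)⁻¹ := by positivity
      rw [one_div]
      linarith
    have s2 : ∑ p ∈ M, (if p ∈ Ex then cs κ * (1 / (z : ℝ)) else 0) ≤ Ex.card * (cs κ * (1 / z)) := by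
      rw [← sum_filter, sum_const, nsmul_eq_mul]
      apply mul_le_mul_of_nonneg_right _ (by positivity)
      have : M.filter (fun p => p ∈ Ex) ⊆ Ex := fun p hp => (mem_filter.1 hp).2
      exact_mod_cast card_le_card this
    have s3 : cs κ * ∑ p ∈ M, ((p : ℝ) ^ 2)⁻¹ ≤ cs κ * (1 / z) := mul_le_mul_of_nonneg_left s1 hcs
    have e3 : B = cs κ * (1 / z) + Ex.card * (cs κ * (1 / z)) := by
      rw [hB, div_eq_mul_one_div]; ring
    rw [e3]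
    linarith
  have key := Finset.norm_prod_one_add_sub_one_le M (fun p => Gq κ Q p - 1)
  have e3 : ∏ p ∈ M, (1 + (Gq κ Q p - 1)) = ∏ p ∈ M, Gq κ Q p := by
    refine prod_congr rfl fun p _ => by ring
  rw [e3, Real.norm_eq_abs] at key
  refine key.trans ?_
  have h6 : Real.exp (∑ p ∈ M, ‖Gq κ Q p - 1‖) ≤ Real.exp B := Real.exp_le_exp.2 hsum
  have h7 : Real.exp B - 1 ≤ 2 * B := by
    have h8 := Real.abs_exp_sub_one_le (x := B) (by rw [abs_of_nonneg hB0]; exact hB1)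
    rw [abs_of_nonneg hB0] at h8
    exact (le_abs_self _).trans h8
  linarith

/-- the lower bound -/
noncomputable def lowc (κ : ℕ) : ℝ := (1 / ((4 * κ ^ 2 + 2 : ℕ) : ℝ) ^ 2) ^ (4 * κ ^ 2 + 2) / 2

lemma lowc_pos (κ : ℕ) : 0 < lowc κ := by
  unfold lowc
  have : (0 : ℝ) < ((4 * κ ^ 2 + 2 : ℕ) : ℝ) := by
    have : 0 < 4 * κ ^ 2 + 2 := by omega
    exact_mod_cast this
  refine div_pos (pow_pos ?_ _) (by norm_num)
  exact div_pos one_pos (pow_pos this 2)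

lemma prod_sub_ge {ι : Type} (s : Finset ι) (x : ι → ℝ) (h0 : ∀ i ∈ s, 0 ≤ x i) (h1 : ∀ i ∈ s, x i ≤ 1) :
    1 - ∑ i ∈ s, x i ≤ ∏ i ∈ s, (1 - x i) := by
  classical
  induction s using Finset.induction_on with
  | empty => simp
  | insert i s his ih =>
    rw [sum_insert his, prod_insert his]
    have h2 := ih (fun j hj => h0 j (mem_insert_of_mem hj)) (fun j hj => h1 j (mem_insert_of_mem hj))
    have h3 := h0 i (mem_insert_self _ _)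
    have h4 := h1 i (mem_insert_self _ _)
    have h5 : 0 ≤ ∑ j ∈ s, x j := sum_nonneg fun j hj => h0 j (mem_insert_of_mem hj)
    have h6 : (1 - x i) * (1 - ∑ j ∈ s, x j) ≤ (1 - x i) * ∏ j ∈ s, (1 - x j) :=
      mul_le_mul_of_nonneg_left h2 (by linarith)
    nlinarith [mul_nonneg h3 h5]

lemma Sq_lower {κ : ℕ} {Q : ℕ → ℕ → ℕ → Prop} (h : ∀ p, p.Prime → nu2 Q p ≤ κ * p)
    (hs : ∀ p, p.Prime → p ≤ 4 * κ ^ 2 + 2 → nu2 Q p < p ^ 2) (z : ℕ) : lowc κ ≤ Sq κ Q z := by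
  classical
  set p0 := 4 * κ ^ 2 + 2 with hp0
  have hp0pos : (0 : ℝ) < (p0 : ℝ) := by
    have : 0 < p0 := by omega
    exact_mod_cast this
  have hp01 : (1 : ℝ) ≤ (p0 : ℝ) := by
    have : 1 ≤ p0 := by omega
    exact_mod_cast this
  have hp0r : (p0 : ℝ) = 4 * (κ : ℝ) ^ 2 + 2 := by rw [hp0]; push_cast; ring
  unfold Sq
  rw [← prod_filter_mul_prod_filter_not (pz z) (fun p => p ≤ p0)]
  have hA : (1 / ((p0 : ℕ) : ℝ) ^ 2) ^ p0 ≤ ∏ p ∈ (pz z).filter (fun p => p ≤ p0), Gq κ Q p := by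
    have h1 : ∏ p ∈ (pz z).filter (fun p => p ≤ p0), (1 / (p0 : ℝ) ^ 2) ≤ ∏ p ∈ (pz z).filter (fun p => p ≤ p0), Gq κ Q p := by
      apply prod_le_prod (fun _ _ => by positivity)
      intro p hp
      rw [mem_filter] at hp
      have hpp := (mem_pz.1 hp.1).2
      have hpr : (0 : ℝ) < p := by exact_mod_cast hpp.pos
      have h2 : (nu2 Q p : ℝ) + 1 ≤ p ^ 2 := by exact_mod_cast hs p hpp hp.2
      have h3 : 1 / (p : ℝ) ^ 2 ≤ 1 - (nu2 Q p : ℝ) / p ^ 2 := by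
        rw [le_sub_iff_add_le, ← add_div, div_le_one (by positivity)]
        linarith
      have h4 := den_pos κ hpp
      have h5 : (0 : ℝ) < 1 / 2 ^ κ := by positivity
      obtain ⟨h6, h7⟩ := inv_le_half hpp
      have h8 := (pw κ (1 / (p : ℝ)) h6.le (by linarith)).2.2
      have h9 : 1 / (p0 : ℝ) ^ 2 ≤ 1 / (p : ℝ) ^ 2 := by
        have : (p : ℝ) ≤ p0 := by exact_mod_cast hp.2
        gcongr
      have h10 : 0 ≤ 1 - (nu2 Q p : ℝ) / p ^ 2 := le_trans (by positivity) h3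
      unfold Gq
      rw [le_div_iff₀ (by linarith)]
      calc 1 / (p0 : ℝ) ^ 2 * (1 - 1 / (p : ℝ)) ^ κ ≤ 1 / (p0 : ℝ) ^ 2 * 1 := by gcongr
        _ ≤ _ := by linarith
    refine le_trans ?_ h1
    rw [prod_const]
    have h2 : ((pz z).filter (fun p => p ≤ p0)).card ≤ p0 := by
      calc _ ≤ (Icc 1 p0).card := by
            apply card_le_card
            intro p hp
            rw [mem_filter, mem_pz] at hp
            rw [mem_Icc]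
            exact ⟨hp.1.2.one_lt.le, hp.2⟩
        _ = p0 := by simp
    apply pow_le_pow_of_le_one (by positivity) _ h2
    rw [div_le_one (by positivity)]
    exact one_le_pow₀ hp01
  have hB : 1 / 2 ≤ ∏ p ∈ (pz z).filter (fun p => ¬ p ≤ p0), Gq κ Q p := by
    have h1 : ∏ p ∈ (pz z).filter (fun p => ¬ p ≤ p0), (1 - 2 * (κ : ℝ) ^ 2 * ((p : ℝ) ^ 2)⁻¹) ≤
        ∏ p ∈ (pz z).filter (fun p => ¬ p ≤ p0), Gq κ Q p := by
      apply prod_le_prod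
      · intro p hp
        rw [mem_filter, not_le] at hp
        have h2 : (p0 : ℝ) ≤ p := by exact_mod_cast hp.2.le
        have hpr : (0 : ℝ) < p := by linarith
        rw [sub_nonneg, ← div_eq_mul_inv, div_le_one (by positivity)]
        rw [hp0r] at h2
        nlinarith [sq_nonneg (κ : ℝ)]
      · intro p hp
        rw [mem_filter, not_le] at hp
        have hpp := (mem_pz.1 hp.1).2
        have h2 : (p0 : ℝ) ≤ p := by exact_mod_cast hp.2.le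
        have hpr : (0 : ℝ) < p := by linarith
        obtain ⟨h6, h7⟩ := inv_le_half hpp
        obtain ⟨h8, h9, h10⟩ := pw κ (1 / (p : ℝ)) h6.le (by linarith)
        obtain ⟨_, h11⟩ := nu_x hpp κ (h p hpp)
        have h4 := den_pos κ hpp
        have h5 : (0 : ℝ) < 1 / 2 ^ κ := by positivity
        have h12 : (κ : ℝ) * (1 / (p : ℝ)) ≤ 1 / 2 := by
          rw [mul_one_div, div_le_div_iff₀ hpr (by norm_num)]
          rw [hp0r] at h2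
          nlinarith [sq_nonneg ((κ : ℝ) - 1), (Nat.cast_nonneg κ : (0 : ℝ) ≤ κ)]
        have hinv : ((p : ℝ) ^ 2)⁻¹ = (1 / (p : ℝ)) ^ 2 := by rw [one_div, inv_pow]
        unfold Gq
        rw [le_div_iff₀ (by linarith), hinv]
        set x : ℝ := 1 / (p : ℝ) with hx
        have hk0 : (0 : ℝ) ≤ κ := Nat.cast_nonneg κ
        have h13 : (κ : ℝ) ^ 2 * x ^ 2 ≤ 1 / 4 := by
          have : (κ * x) ^ 2 ≤ (1 / 2) ^ 2 := pow_le_pow_left₀ (by positivity) h12 2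
          nlinarith
        have h14 : 0 ≤ 1 - 2 * (κ : ℝ) ^ 2 * x ^ 2 := by nlinarith
        calc (1 - 2 * (κ : ℝ) ^ 2 * x ^ 2) * (1 - x) ^ κ ≤ (1 - 2 * (κ : ℝ) ^ 2 * x ^ 2) * (1 - κ * x + κ ^ 2 * x ^ 2) := by
              gcongr
          _ ≤ 1 - κ * x := by
              have h15 : 0 ≤ (κ : ℝ) ^ 2 * x ^ 2 := by positivity
              nlinarith [mul_nonneg h15 (by linarith : 0 ≤ 1 / 2 - κ * x), mul_nonneg h15 h15]
          _ ≤ _ := by linarith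
    refine le_trans ?_ h1
    have h3 := prod_sub_ge ((pz z).filter (fun p => ¬ p ≤ p0)) (fun p => 2 * (κ : ℝ) ^ 2 * ((p : ℝ) ^ 2)⁻¹)
      (fun p _ => by positivity) (by
        intro p hp
        rw [mem_filter, not_le] at hp
        have h2 : (p0 : ℝ) ≤ p := by exact_mod_cast hp.2.le
        have hpr : (0 : ℝ) < p := by linarith
        rw [← div_eq_mul_inv, div_le_one (by positivity)]
        rw [hp0r] at h2
        nlinarith [sq_nonneg (κ : ℝ)])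
    refine le_trans ?_ h3
    rw [← mul_sum]
    have h4 : ∑ p ∈ (pz z).filter (fun p => ¬ p ≤ p0), ((p : ℝ) ^ 2)⁻¹ ≤ 1 / p0 := by
      rcases Nat.lt_or_ge z p0 with hz | hz
      · have : (pz z).filter (fun p => ¬ p ≤ p0) = ∅ := by
          rw [filter_eq_empty_iff]
          intro p hp
          have := (mem_pz.1 hp).1
          omega
        rw [this, sum_empty]
        positivity
      · have e := sum_Ioc_inv_sq_le_sub (α := ℝ) (k := p0) (n := z) (by omega) hz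
        have e2 : ∑ p ∈ (pz z).filter (fun p => ¬ p ≤ p0), ((p : ℝ) ^ 2)⁻¹ ≤ ∑ i ∈ Ioc p0 z, ((i : ℝ) ^ 2)⁻¹ := by
          apply sum_le_sum_of_subset_of_nonneg _ (fun _ _ _ => by positivity)
          intro p hp
          rw [mem_filter, mem_pz] at hp
          rw [mem_Ioc]
          omega
        have h5 : (0 : ℝ) ≤ (z : ℝ)⁻¹ := by positivity
        rw [one_div]
        linarith
    have h5 : 2 * (κ : ℝ) ^ 2 * ∑ p ∈ (pz z).filter (fun p => ¬ p ≤ p0), ((p : ℝ) ^ 2)⁻¹ ≤ 2 * (κ : ℝ) ^ 2 * (1 / p0) := by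
      gcongr
    have h6 : 2 * (κ : ℝ) ^ 2 * (1 / p0) ≤ 1 / 2 := by
      rw [mul_one_div, div_le_div_iff₀ hp0pos (by norm_num), hp0r]
      linarith
    linarith
  unfold lowc
  rw [← hp0]
  calc (1 / ((p0 : ℕ) : ℝ) ^ 2) ^ p0 / 2 = (1 / ((p0 : ℕ) : ℝ) ^ 2) ^ p0 * (1 / 2) := by ring
    _ ≤ _ := mul_le_mul hA hB (by norm_num) (le_trans (by positivity) hA)

end Pool.Agent.H76.PT
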