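import Pool.Agent.H76.PT.Main
import Pool.Agent.H76.VG.Tern

set_option autoImplicit false

/-!
The ternary problem: from exponential sums to the number of the solutions.
-/

namespace Pool.Agent.H76.PT

open Finset
open Pool.Agent.H807R2.Dav (ee norm_ee ee_add)
open Pool.Agent.H76.VG (T3 tern)

/-- a function on `[1, X]`, as a function on the integers -/
def ct (X : ℕ) (u : ℕ → ℂ) (a : ℤ) : ℂ := if a.toNat ∈ Icc 1 X then u a.toNat else 0

lemma T3_TR (X m : ℕ) (u v w : ℕ → ℂ) :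
    T3 X (ct X u) (ct X v) (ct X w) m = ∑ t ∈ TR X m, u t.1 * v t.2 * w (m - t.1 - t.2) := by
  unfold T3
  have e1 : ∀ a ∈ Icc (1 : ℤ) X, ∀ b ∈ Icc (1 : ℤ) X, ∀ c ∈ Icc (1 : ℤ) X,
      (if a + b + c = (m : ℤ) then ct X u a * ct X v b * ct X w c else 0) =
      (if a + b + c = (m : ℤ) then u a.toNat * v b.toNat * w c.toNat else 0) := by
    intro a ha b hb c hc
    rw [mem_Icc] at ha hb hc
    unfold ct
    rw [if_pos (mem_Icc.2 (by omega)), if_pos (mem_Icc.2 (by omega)), if_pos (mem_Icc.2 (by omega))]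
  rw [sum_congr rfl (fun a ha => sum_congr rfl fun b hb => sum_congr rfl fun c hc => e1 a ha b hb c hc)]
  rw [← sum_product', ← sum_product', ← sum_filter]
  refine sum_bij' (fun p _ => (p.1.1.toNat, p.1.2.toNat)) (fun t _ => (((t.1 : ℤ), (t.2 : ℤ)), (m : ℤ) - t.1 - t.2)) ?_ ?_ ?_ ?_ ?_
  · intro p hp
    rw [mem_filter, mem_product, mem_product, mem_Icc, mem_Icc, mem_Icc] at hp
    rw [mem_TR]
    dsimp only
    omega
  · intro t ht
    rw [mem_TR] at ht
    rw [mem_filter, mem_product, mem_product, mem_Icc, mem_Icc, mem_Icc]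
    dsimp only
    omega
  · intro p hp
    rw [mem_filter, mem_product, mem_product, mem_Icc, mem_Icc, mem_Icc] at hp
    obtain ⟨⟨x, y⟩, z⟩ := p
    dsimp only at hp ⊢
    simp only [Prod.mk.injEq]
    omega
  · intro t _
    simp
  · intro p hp
    rw [mem_filter, mem_product, mem_product, mem_Icc, mem_Icc, mem_Icc] at hp
    dsimp only
    congr 2
    omega

theorem tern3 (X m : ℕ) (u v : Fin 3 → ℕ → ℂ) (C T : ℝ) (hC : 0 ≤ C) (hT : 0 ≤ T)
    (hu : ∀ r, ∀ n ∈ Icc 1 X, ‖u r n‖ ≤ C) (hv : ∀ r, ∀ n ∈ Icc 1 X, ‖v r n‖ ≤ C)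
    (h : ∀ r, ∀ α : ℝ, ‖∑ n ∈ Icc 1 X, (u r n - v r n) * ee ((n : ℝ) * α)‖ ≤ T) :
    ‖∑ t ∈ TR X m, u 0 t.1 * u 1 t.2 * u 2 (m - t.1 - t.2) - ∑ t ∈ TR X m, v 0 t.1 * v 1 t.2 * v 2 (m - t.1 - t.2)‖ ≤
      3 * (T * (X * C ^ 2)) := by
  by_cases hm : m ≤ 3 * X
  · rw [← T3_TR, ← T3_TR]
    have hct : ∀ (f : ℕ → ℂ), (∀ n ∈ Icc 1 X, ‖f n‖ ≤ C) → ∀ a : ℤ, ‖ct X f a‖ ≤ C := by
      intro f hf a
      unfold ct
      split_ifs with h3
      · exact hf _ h3
      · rw [norm_zero]; exact hC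
    have hZ : ∀ r, ∀ x : ℝ, ‖∑ a ∈ Icc (1 : ℤ) X, (ct X (u r) a - ct X (v r) a) * ee (x * a)‖ ≤ T := by
      intro r x
      refine le_trans (le_of_eq ?_) (h r x)
      congr 1
      refine sum_bij' (fun (a : ℤ) _ => a.toNat) (fun (n : ℕ) _ => (n : ℤ)) ?_ ?_ ?_ ?_ ?_
      · intro a ha
        rw [mem_Icc] at ha ⊢
        omega
      · intro n hn
        rw [mem_Icc] at hn ⊢
        omega
      · intro a ha
        rw [mem_Icc] at ha
        omega
      · intro n _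
        simp
      · intro a ha
        rw [mem_Icc] at ha
        unfold ct
        have ha' : a.toNat ∈ Icc 1 X := mem_Icc.2 (by omega)
        rw [if_pos ha', if_pos ha']
        congr 2
        have : ((a.toNat : ℕ) : ℝ) = (a : ℝ) := by
          have h3 : ((a.toNat : ℕ) : ℤ) = a := Int.toNat_of_nonneg (by omega)
          exact_mod_cast congrArg (fun z : ℤ => (z : ℝ)) h3
        rw [this]
        ring
    exact tern X _ _ _ _ _ _ C T (hct _ (hu 1)) (hct _ (hu 2)) (hct _ (hv 0)) (hct _ (hv 1))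
      (hZ 0) (hZ 1) (hZ 2) m (by positivity) (by exact_mod_cast hm)
  · have : TR X m = ∅ := by
      rw [eq_empty_iff_forall_notMem]
      intro t ht
      rw [mem_TR] at ht
      omega
    rw [this, sum_empty, sum_empty, sub_zero, norm_zero]
    positivity

end Pool.Agent.H76.PT
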